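import Pool.Agent.H620R2.Gauge.S
import Pool.Agent.H620R2.Gauge.A1

/-!
# Chains of oracles and certificates

The strings `wd x u = ⟨u, ⟨x, 1 ... 1⟩⟩` with `2 ^ (|x| + 1)` ones are the witnesses of `x`; the
language `LL A` consists of the strings which have a short witness in `A`.
-/

set_option autoImplicit false

namespace Pool.Agent.J6H56.GA

open Pool.Agent.NPC Pool.Agent.H620R2.Gauge Finset

/-- the padded string -/
def pd (x : List Bool) : List Bool := pairBits x (List.replicate (2 ^ (1 * (x.length + 1))) true)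

/-- the witness `u` of `x` -/
def wd (x u : List Bool) : List Bool := pairBits u (pd x)

/-- the language -/
def LL (A : Oracle) : Set (List Bool) := {x | ∃ u : List Bool, u.length ≤ (pd x).length ∧
  A (wd x u) = true}

theorem length_pd (x : List Bool) : (pd x).length = 2 * x.length + 1 + 2 ^ (x.length + 1) := by
  unfold pd
  rw [Pool.Agent.H620R2.Gauge.length_pairBits, List.length_replicate, one_mul]

theorem wd_inj {x x' u u' : List Bool} (h : wd x u = wd x' u') : x = x' ∧ u = u' := by
  have h1 := congrArg unpair h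
  unfold wd at h1
  rw [unpair_pairBits, unpair_pairBits, Prod.mk.injEq] at h1
  have h2 := congrArg unpair h1.2
  unfold pd at h2
  rw [unpair_pairBits, unpair_pairBits, Prod.mk.injEq] at h2
  exact ⟨h2.1, h1.1⟩

theorem length_wd (x u : List Bool) : 2 ^ (x.length + 1) ≤ (wd x u).length := by
  unfold wd
  rw [Pool.Agent.H620R2.Gauge.length_pairBits, length_pd]
  omega

section

variable {n : ℕ}

open Classical in
/-- the oracle `B`, with the witnesses `y j` of the strings number `j` with `T j` -/
noncomputable def Af (n : ℕ) (B : Oracle) (y : ℕ → List Bool) (T : ℕ → Prop) : Oracle :=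
  fun v => B v || decide (∃ j < 2 ^ n, T j ∧ v = wd (bitsOf n j) (y j))

theorem af_iff {B : Oracle} {y : ℕ → List Bool} {T : ℕ → Prop} {v : List Bool} :
    Af n B y T v = true ↔ B v = true ∨ ∃ j < 2 ^ n, T j ∧ v = wd (bitsOf n j) (y j) := by
  classical
  unfold Af
  rw [Bool.or_eq_true, decide_eq_true_iff]

theorem af_off {B : Oracle} {y : ℕ → List Bool} {T : ℕ → Prop} {v : List Bool}
    (hv : ∀ j < 2 ^ n, T j → v ≠ wd (bitsOf n j) (y j)) : Af n B y T v = B v := by
  rw [Bool.eq_iff_iff, af_iff]
  constructor
  · rintro (h | ⟨j, h1, h2, h3⟩)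
    · exact h
    · exact absurd h3 (hv j h1 h2)
  · exact Or.inl

theorem af_short {B : Oracle} {y : ℕ → List Bool} {T : ℕ → Prop} {v : List Bool}
    (hv : v.length < 2 ^ (n + 1)) : Af n B y T v = B v := by
  refine af_off fun j _ _ h => ?_
  have := length_wd (bitsOf n j) (y j)
  rw [length_bitsOf, ← h] at this
  omega

theorem af_congr {B : Oracle} {y y' : ℕ → List Bool} {T : ℕ → Prop}
    (h : ∀ j, T j → y j = y' j) : Af n B y T = Af n B y' T := by
  funext v
  rw [Bool.eq_iff_iff, af_iff, af_iff]
  refine or_congr_right (exists_congr fun j => and_congr_right fun _ =>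
    and_congr_right fun hT => ?_)
  rw [h j hT]

theorem af_true {B : Oracle} {y : ℕ → List Bool} {T : ℕ → Prop} {j : ℕ} (hj : j < 2 ^ n)
    (hT : T j) : Af n B y T (wd (bitsOf n j) (y j)) = true :=
  af_iff.2 (Or.inr ⟨j, hj, hT, rfl⟩)

/-- two of these oracles differ in the witnesses only -/
theorem af_agree {B : Oracle} {y : ℕ → List Bool} {T T' : ℕ → Prop} {v : List Bool}
    (h : ∀ j < 2 ^ n, v = wd (bitsOf n j) (y j) → (T j ↔ T' j)) :
    Af n B y T v = Af n B y T' v := by
  rw [Bool.eq_iff_iff, af_iff, af_iff]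
  exact or_congr_right (exists_congr fun j => and_congr_right fun hj =>
    ⟨fun h1 => ⟨(h j hj h1.2).1 h1.1, h1.2⟩, fun h1 => ⟨(h j hj h1.2).2 h1.1, h1.2⟩⟩)

theorem mem_ll {B : Oracle} (hB : ∀ v : List Bool, 2 ^ (n + 1) ≤ v.length → B v = false)
    {y : ℕ → List Bool} (hy : ∀ j, (y j).length = 2 ^ (n + 1)) {T : ℕ → Prop} {k : ℕ}
    (hk : k < 2 ^ n) : bitsOf n k ∈ LL (Af n B y T) ↔ T k := by
  constructor
  · rintro ⟨u, _, h2⟩
    rw [af_iff] at h2
    rcases h2 with h2 | ⟨j, hj, hT, h4⟩
    · have h3 := length_wd (bitsOf n k) u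
      rw [length_bitsOf] at h3
      rw [hB _ h3] at h2
      exact Bool.noConfusion h2
    · have h5 := bitsOf_inj hk hj (wd_inj h4).1
      rwa [h5]
  · intro hT
    refine ⟨y k, ?_, af_true hk hT⟩
    rw [hy, length_pd, length_bitsOf]
    omega

/-- there is a witness outside of a small set -/
theorem exists_wd (U : Finset (List Bool)) (m : ℕ) (hU : U.card < 2 ^ m) (x : List Bool) :
    ∃ u : List Bool, u.length = m ∧ wd x u ∉ U := by
  by_contra hcon
  push Not at hcon
  have h1 : ((range (2 ^ m)).image fun t => wd x (bitsOf m t)) ⊆ U := by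
    intro v hv
    obtain ⟨t, _, rfl⟩ := mem_image.1 hv
    exact hcon _ (length_bitsOf m t)
  have h2 := card_le_card h1
  rw [card_image_of_injOn, card_range] at h2
  · omega
  · intro t ht t' ht' h
    have ht2 : t < 2 ^ m := by simpa using ht
    have ht2' : t' < 2 ^ m := by simpa using ht'
    exact bitsOf_inj ht2 ht2' (wd_inj h).2

end

/-- `A'` arises from `A` by a change at few long strings outside of `H` -/
def Near (n : ℕ) (H : Finset (List Bool)) (A A' : Oracle) : Prop :=
  ∃ D : Finset (List Bool), D.card ≤ 2 ^ n ∧ (∀ v ∈ D, 2 ^ (n + 1) ≤ v.length) ∧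
    (∀ v ∈ D, v ∉ H) ∧ ∀ v, v ∉ D → A' v = A v

/-- Small certificates: if `Yes A w x`, then there is a small set of strings such that `No A' w x`
does not hold for the oracles `A'` which arise from `A` by a change at few long strings outside of
this set. -/
def HasCert (n r : ℕ) (W : Finset (List Bool)) (Yes No : Oracle → List Bool → List Bool → Prop) :
    Prop :=
  ∀ (A : Oracle) (w x : List Bool), w ∈ W → x.length = n → Yes A w x →
    ∃ H : Finset (List Bool), H.card ≤ r ∧ ∀ A' : Oracle, Near n H A A' → ¬ No A' w x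

open Classical in
/-- the chosen certificate -/
noncomputable def qc {n r : ℕ} {W : Finset (List Bool)}
    {Yes No : Oracle → List Bool → List Bool → Prop} (h : HasCert n r W Yes No) (A : Oracle)
    (w x : List Bool) : Finset (List Bool) :=
  if h1 : w ∈ W ∧ x.length = n ∧ Yes A w x then (h A w x h1.1 h1.2.1 h1.2.2).choose else ∅

section

variable {n r : ℕ} {W : Finset (List Bool)} {Yes No : Oracle → List Bool → List Bool → Prop}

theorem qc_card (h : HasCert n r W Yes No) (A : Oracle) (w x : List Bool) :
    (qc h A w x).card ≤ r := by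
  unfold qc
  split_ifs with h1
  · exact (h A w x h1.1 h1.2.1 h1.2.2).choose_spec.1
  · simp

theorem qc_spec (h : HasCert n r W Yes No) {A A' : Oracle} {w x : List Bool} (hw : w ∈ W)
    (hx : x.length = n) (hA : Yes A w x) (h1 : Near n (qc h A w x) A A') : ¬ No A' w x := by
  have h5 : w ∈ W ∧ x.length = n ∧ Yes A w x := ⟨hw, hx, hA⟩
  unfold qc at h1
  rw [dif_pos h5] at h1
  exact (h A w x hw hx hA).choose_spec.2 A' h1

/-- good witnesses: none of them is in a certificate for a smaller set -/
theorem exists_y (h : HasCert n r W Yes No) (B : Oracle)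
    (hsz : 2 ^ n * (W.card * (2 ^ n * r)) < 2 ^ 2 ^ (n + 1)) (K : ℕ) (hK : K ≤ 2 ^ n) :
    ∃ y : ℕ → List Bool, (∀ j, (y j).length = 2 ^ (n + 1)) ∧ ∀ j < K, ∀ i ≤ j, ∀ w ∈ W,
      ∀ k < 2 ^ n, wd (bitsOf n j) (y j) ∉ qc h (Af n B y (fun l => l < i)) w (bitsOf n k) := by
  induction K with
  | zero =>
    refine ⟨fun _ => List.replicate (2 ^ (n + 1)) true, fun j => by simp, fun j hj => ?_⟩
    omega
  | succ K ih =>
    obtain ⟨y, h1, h2⟩ := ih (by omega)
    set U : Finset (List Bool) := (range (K + 1)).biUnion fun i => W.biUnion fun w =>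
      (range (2 ^ n)).biUnion fun k => qc h (Af n B y (fun l => l < i)) w (bitsOf n k) with hU
    have hUc : U.card < 2 ^ 2 ^ (n + 1) := by
      refine lt_of_le_of_lt ?_ hsz
      have e1 : U.card ≤ (range (K + 1)).card * (W.card * ((range (2 ^ n)).card * r)) := by
        refine card_biUnion_le_card_mul _ _ _ fun i _ => ?_
        refine card_biUnion_le_card_mul _ _ _ fun w _ => ?_
        exact card_biUnion_le_card_mul _ _ _ fun k _ => qc_card h _ _ _
      rw [card_range, card_range] at e1
      exact e1.trans (Nat.mul_le_mul_right _ hK)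
    obtain ⟨u, hu1, hu2⟩ := exists_wd U _ hUc (bitsOf n K)
    have hcongr : ∀ i ≤ K, Af n B (Function.update y K u) (fun l => l < i) =
        Af n B y (fun l => l < i) := by
      intro i hi
      refine af_congr fun j hj => ?_
      rw [Function.update_of_ne (by omega)]
    refine ⟨Function.update y K u, fun j => ?_, fun j hj i hi w hw k hk => ?_⟩
    · by_cases hj : j = K
      · rw [hj, Function.update_self, hu1]
      · rw [Function.update_of_ne hj, h1]
    · rw [hcongr i (by omega)]
      by_cases hjK : j = K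
      · subst hjK
        rw [Function.update_self]
        intro hcon
        apply hu2
        rw [hU]
        simp only [mem_biUnion, mem_range]
        exact ⟨i, by omega, w, hw, k, hk, hcon⟩
      · rw [Function.update_of_ne hjK]
        exact h2 j (by omega) i hi w hw k hk

/-- **The chain lemma.** If there are at most `2 ^ n` advice strings and there are small
certificates, then for some oracle no advice string is right for the complement of `LL` on the
strings of length `n`. -/
theorem chain (h : HasCert n r W Yes No) {B : Oracle}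
    (hB : ∀ v : List Bool, 2 ^ (n + 1) ≤ v.length → B v = false)
    (hsz : 2 ^ n * (W.card * (2 ^ n * r)) < 2 ^ 2 ^ (n + 1)) (hW : W.card ≤ 2 ^ n) :
    ∃ A : Oracle, (∀ v : List Bool, v.length < 2 ^ (n + 1) → A v = B v) ∧
      ∀ w ∈ W, ∃ x : List Bool, x.length = n ∧
        ¬ ((x ∉ LL A → Yes A w x) ∧ (x ∈ LL A → No A w x)) := by
  obtain ⟨y, hy1, hy2⟩ := exists_y h B hsz (2 ^ n) le_rfl
  set C : ℕ → Oracle := fun i => Af n B y (fun l => l < i) with hC
  by_cases hex : ∃ i ≤ 2 ^ n, ∀ w ∈ W, ∃ x : List Bool, x.length = n ∧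
      ¬ ((x ∉ LL (C i) → Yes (C i) w x) ∧ (x ∈ LL (C i) → No (C i) w x))
  · obtain ⟨i, _, hi⟩ := hex
    exact ⟨C i, fun v hv => af_short hv, hi⟩
  · exfalso
    push Not at hex
    choose! f hf using hex
    obtain ⟨i, hi, i', hi', hne, heq⟩ := exists_ne_map_eq_of_card_lt_of_maps_to
      (s := range (2 ^ n + 1)) (t := W) (by rw [card_range]; omega)
      (f := f) (fun i hi => (hf i (by
        have : i ∈ range (2 ^ n + 1) := hi
        rw [mem_range] at this
        omega)).1)
    rw [mem_range] at hi hi'
    have key : ∀ a b : ℕ, a < b → b ≤ 2 ^ n → f a = f b → False := by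
      intro a b hab hb hfab
      obtain ⟨h1, h2⟩ := hf a (by omega)
      obtain ⟨h3, h4⟩ := hf b hb
      have h5 := (h2 (bitsOf n a) (length_bitsOf n a)).1
      have h6 := (h4 (bitsOf n a) (length_bitsOf n a)).2
      rw [mem_ll hB hy1 (by omega)] at h5 h6
      have h7 : Yes (C a) (f a) (bitsOf n a) := h5 (lt_irrefl a)
      have h8 : ¬ No (C b) (f a) (bitsOf n a) := by
        refine qc_spec h h1 (length_bitsOf n a) h7
          ⟨((range (2 ^ n)).filter fun j => a ≤ j).image fun j => wd (bitsOf n j) (y j),
          ?_, ?_, ?_, fun v hv => ?_⟩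
        · refine card_image_le.trans ((card_filter_le _ _).trans ?_)
          rw [card_range]
        · intro v hv
          obtain ⟨j, _, rfl⟩ := mem_image.1 hv
          have := length_wd (bitsOf n j) (y j)
          rwa [length_bitsOf] at this
        · intro v hv
          obtain ⟨j, hj, rfl⟩ := mem_image.1 hv
          rw [mem_filter, mem_range] at hj
          exact hy2 j hj.1 a hj.2 (f a) h1 a (by omega)
        · refine af_agree fun j hj hvj => ?_
          have hja : ¬ a ≤ j := fun h9 => hv (mem_image.2 ⟨j, mem_filter.2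
            ⟨mem_range.2 hj, h9⟩, hvj.symm⟩)
          constructor
          · intro _
            show j < a
            omega
          · intro _
            show j < b
            omega
      rw [hfab] at h8
      exact h8 (h6 hab)
    rcases Nat.lt_or_gt_of_ne hne with hlt | hgt
    · exact key i i' hlt (by omega) heq
    · exact key i' i hgt (by omega) heq.symm

end

/-- Small certificates for one of the answers: outside of a small set of strings, a change of few
strings does not lead to the other answer. -/
def HasCert2 (n r : ℕ) (W : Finset (List Bool)) (Yes No : Oracle → List Bool → List Bool → Prop) :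
    Prop :=
  ∀ (A : Oracle) (w x : List Bool), w ∈ W → x.length = n →
    ∃ H : Finset (List Bool), H.card ≤ r ∧
      ((∀ A' : Oracle, Near n H A A' → ¬ Yes A' w x) ∨ ∀ A' : Oracle, Near n H A A' → ¬ No A' w x)

/-- **The table lemma.** If there are fewer than `2 ^ 2 ^ n` advice strings and there are small
certificates, then for some oracle no advice string is right for `LL` on the strings of length
`n`. -/
theorem tables {n r : ℕ} {W : Finset (List Bool)}
    {Yes No : Oracle → List Bool → List Bool → Prop}
    (h : HasCert2 n r W Yes No) {B : Oracle}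
    (hB : ∀ v : List Bool, 2 ^ (n + 1) ≤ v.length → B v = false)
    (hsz : W.card * (2 ^ n * r) < 2 ^ 2 ^ (n + 1)) (hW : W.card < 2 ^ 2 ^ n) :
    ∃ A : Oracle, (∀ v : List Bool, v.length < 2 ^ (n + 1) → A v = B v) ∧
      ∀ w ∈ W, ∃ x : List Bool, x.length = n ∧
        ¬ ((x ∈ LL A → Yes A w x) ∧ (x ∉ LL A → No A w x)) := by
  classical
  choose! Q hQ1 hQ2 using h B
  set U : Finset (List Bool) := W.biUnion fun w =>
      (range (2 ^ n)).biUnion fun k => Q w (bitsOf n k) with hU
  have hUc : U.card < 2 ^ 2 ^ (n + 1) := by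
    refine lt_of_le_of_lt ?_ hsz
    have e1 : U.card ≤ W.card * ((range (2 ^ n)).card * r) := by
      refine card_biUnion_le_card_mul _ _ _ fun w hw => ?_
      exact card_biUnion_le_card_mul _ _ _ fun k _ => hQ1 w _ hw (length_bitsOf n k)
    rwa [card_range] at e1
  choose y hy1 hy2 using fun j : ℕ => exists_wd U _ hUc (bitsOf n j)
  have hnear : ∀ (T : ℕ → Prop), ∀ w ∈ W, ∀ k < 2 ^ n,
      Near n (Q w (bitsOf n k)) B (Af n B y T) := by
    intro T w hw k hk
    refine ⟨(range (2 ^ n)).image fun j => wd (bitsOf n j) (y j), ?_, ?_, ?_, fun v hv => ?_⟩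
    · refine card_image_le.trans ?_
      rw [card_range]
    · intro v hv
      obtain ⟨j, _, rfl⟩ := mem_image.1 hv
      have := length_wd (bitsOf n j) (y j)
      rwa [length_bitsOf] at this
    · intro v hv hvQ
      obtain ⟨j, _, rfl⟩ := mem_image.1 hv
      refine hy2 j ?_
      rw [hU]
      simp only [mem_biUnion, mem_range]
      exact ⟨w, hw, k, hk, hvQ⟩
    · exact af_off fun j hj _ hvj => hv (mem_image.2 ⟨j, mem_range.2 hj, hvj.symm⟩)
  -- a table different from all the tables of the advice strings
  obtain ⟨T, hT1, hT2⟩ : ∃ T ∈ (range (2 ^ n)).powerset,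
      T ∉ W.image fun w => (range (2 ^ n)).filter fun k =>
        ∀ A' : Oracle, Near n (Q w (bitsOf n k)) B A' → ¬ No A' w (bitsOf n k) := by
    refine exists_mem_notMem_of_card_lt_card ?_
    refine lt_of_le_of_lt card_image_le ?_
    rwa [card_powerset, card_range]
  refine ⟨Af n B y (fun k => k ∈ T), fun v hv => af_short hv, fun w hw => ?_⟩
  by_contra hcon
  push Not at hcon
  apply hT2
  rw [mem_image]
  refine ⟨w, hw, ?_⟩
  ext k
  rw [mem_filter, mem_range]
  constructor
  · rintro ⟨hk, h1⟩
    by_contra hkT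
    have h2 := (hcon (bitsOf n k) (length_bitsOf n k)).2
    rw [mem_ll hB hy1 hk] at h2
    exact h1 _ (hnear _ w hw k hk) (h2 hkT)
  · intro hk
    have hk2 : k < 2 ^ n := by
      have := mem_powerset.1 hT1 hk
      rwa [mem_range] at this
    have h2 := (hcon (bitsOf n k) (length_bitsOf n k)).1
    rw [mem_ll hB hy1 hk2] at h2
    refine ⟨hk2, ?_⟩
    rcases hQ2 w _ hw (length_bitsOf n k) with h3 | h3
    · exact absurd (h2 hk) (h3 _ (hnear _ w hw k hk2))
    · exact h3

end Pool.Agent.J6H56.GA
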