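import Mathlib

/-!
# Comeager sets of oracles
-/

set_option autoImplicit false

namespace Pool.Agent.J6H56.GA

open Filter Topology

/-- the oracles which agree with `A` on the strings of length less than `N` form an open set -/
theorem isOpen_cyl (A : List Bool → Bool) (N : ℕ) :
    IsOpen {A' : List Bool → Bool | ∀ v : List Bool, v.length < N → A v = A' v} := by
  have h1 : {A' : List Bool → Bool | ∀ v : List Bool, v.length < N → A v = A' v} =
      ⋂ v ∈ {v : List Bool | v.length < N}, (fun A' : List Bool → Bool => A' v) ⁻¹' {A v} := by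
    ext A'
    simp [eq_comm]
  rw [h1]
  refine (List.finite_length_lt Bool N).isOpen_biInter fun v _ => ?_
  exact (isOpen_discrete ({A v} : Set Bool)).preimage (continuous_apply v)

theorem resid {D : Set (List Bool → Bool)} (h : ∀ (A : List Bool → Bool) (ℓ : ℕ),
    ∃ (A' : List Bool → Bool) (N : ℕ), (∀ v : List Bool, v.length < ℓ → A' v = A v) ∧
      ∀ A'' : List Bool → Bool, (∀ v : List Bool, v.length < N → A' v = A'' v) → A'' ∈ D) :
    D ∈ residual (List Bool → Bool) := by
  refine mem_of_superset (residual_of_dense_open (s := interior D) isOpen_interior ?_)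
    interior_subset
  rw [dense_iff_inter_open]
  rintro U hU ⟨A, hA⟩
  obtain ⟨ℓ, hℓ⟩ : ∃ ℓ : ℕ, ∀ A' : List Bool → Bool,
      (∀ v : List Bool, v.length < ℓ → A' v = A v) → A' ∈ U := by
    rw [isOpen_pi_iff] at hU
    obtain ⟨I, u, h1, h2⟩ := hU A hA
    refine ⟨I.sup List.length + 1, fun A' hA' => h2 ?_⟩
    intro v hv
    rw [hA' v (Nat.lt_succ_of_le (Finset.le_sup (f := List.length) hv))]
    exact (h1 v hv).2
  obtain ⟨A', N, h1, h2⟩ := h A ℓ
  exact ⟨A', hℓ A' h1, mem_interior.2 ⟨_, h2, isOpen_cyl A' N, fun v _ => rfl⟩⟩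

/-- a property of the oracle which can be forced for large `n`, and depends on finitely many strings
for each `n`, holds for infinitely many `n`, for all oracles in a comeager set -/
theorem resid_freq {Bad : ℕ → (List Bool → Bool) → Prop}
    (h1 : ∀ᶠ n : ℕ in atTop, ∀ B : List Bool → Bool,
      (∀ v : List Bool, 2 ^ (n + 1) ≤ v.length → B v = false) →
        ∃ A : List Bool → Bool, (∀ v : List Bool, v.length < 2 ^ (n + 1) → A v = B v) ∧ Bad n A)
    (h2 : ∀ n, ∃ N : ℕ, ∀ A A' : List Bool → Bool,
      (∀ v : List Bool, v.length < N → A v = A' v) → Bad n A → Bad n A') :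
    ∀ᶠ A in residual (List Bool → Bool), ∃ᶠ n in atTop, Bad n A := by
  simp only [frequently_atTop]
  rw [eventually_countable_forall]
  intro n₀
  refine resid fun A ℓ => ?_
  obtain ⟨n, h3, h4⟩ := (h1.and ((eventually_ge_atTop n₀).and (eventually_ge_atTop ℓ))).exists
  obtain ⟨A', h5, h6⟩ := h3 (fun v => if v.length < 2 ^ (n + 1) then A v else false)
    (fun v hv => if_neg (by omega))
  obtain ⟨N, hN⟩ := h2 n
  refine ⟨A', N, fun v hv => ?_, fun A'' hA'' => ⟨n, h4.1, hN A' A'' hA'' h6⟩⟩
  have h7 : n + 1 < 2 ^ (n + 1) := Nat.lt_two_pow_self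
  have h8 := h4.2
  rw [h5 v (by omega), if_pos (by omega)]

end Pool.Agent.J6H56.GA
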