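import Pool.Agent.J6H56.GA.Local
import Pool.Agent.J6H56.GA.Resid

/-!
# The chain lemma and the table lemma for comeager sets of oracles
-/

set_option autoImplicit false

namespace Pool.Agent.J6H56.GA

open Pool.Agent.NPC Pool.Agent.H620R2.Gauge Filter

/-- the answers depend on finitely many strings -/
def Fin' (W : ℕ → Finset (List Bool)) (Yes : Oracle → List Bool → List Bool → Prop) : Prop :=
  ∀ n, ∃ N : ℕ, ∀ A A' : Oracle, (∀ v : List Bool, v.length < N → A v = A' v) →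
    ∀ w ∈ W n, ∀ x : List Bool, x.length = n → (Yes A w x ↔ Yes A' w x)

theorem Fin'.symm_ll : ∀ n : ℕ, ∃ N : ℕ, ∀ A A' : Oracle,
    (∀ v : List Bool, v.length < N → A v = A' v) → ∀ x : List Bool, x.length = n →
      (x ∈ LL A ↔ x ∈ LL A') := by
  intro n
  refine ⟨3 * (2 * n + 1 + 2 ^ (n + 1)) + 2, fun A A' h x hx => ll_congr ?_ h⟩
  rw [length_pd, hx]

theorem gen_chain {W : ℕ → Finset (List Bool)} (hW : ∀ n, (W n).card ≤ 2 ^ n)
    {Yes No : Oracle → List Bool → List Bool → Prop}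
    (hC : ∀ᶠ n : ℕ in atTop, ∃ r : ℕ, HasCert n r (W n) Yes No ∧ r ≤ 2 ^ n ^ 2)
    (hY : Fin' W Yes) (hN : Fin' W No) :
    ∀ᶠ A in residual Oracle, ∃ᶠ n in atTop, ∀ w ∈ W n, ∃ x : List Bool, x.length = n ∧
      ¬ ((x ∉ LL A → Yes A w x) ∧ (x ∈ LL A → No A w x)) := by
  refine resid_freq ?_ fun n => ?_
  · filter_upwards [hC, eventually_ge_atTop 6] with n ⟨r, hr, hr2⟩ hn B hB
    refine chain hr hB ?_ (hW n)
    calc 2 ^ n * ((W n).card * (2 ^ n * r)) ≤ 2 ^ n * (2 ^ n * (2 ^ n * 2 ^ n ^ 2)) := by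
          gcongr
          exact hW n
      _ = 2 ^ (n ^ 2 + 3 * n) := by
          rw [← pow_add, ← pow_add, ← pow_add]
          congr 1
          ring
      _ < 2 ^ 2 ^ (n + 1) := by
          apply Nat.pow_lt_pow_right (by norm_num)
          have := sq_le n hn
          omega
  · obtain ⟨N₁, h1⟩ := hY n
    obtain ⟨N₂, h2⟩ := hN n
    obtain ⟨N₃, h3⟩ := Fin'.symm_ll n
    refine ⟨max N₁ (max N₂ N₃), fun A A' hA hbad w hw => ?_⟩
    obtain ⟨x, hx, h4⟩ := hbad w hw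
    refine ⟨x, hx, fun h5 => h4 ?_⟩
    have e1 := h1 A A' (fun v hv => hA v (lt_of_lt_of_le hv (le_max_left _ _))) w hw x hx
    have e2 := h2 A A' (fun v hv => hA v (lt_of_lt_of_le hv ((le_max_left _ _).trans
      (le_max_right _ _)))) w hw x hx
    have e3 := h3 A A' (fun v hv => hA v (lt_of_lt_of_le hv ((le_max_right _ _).trans
      (le_max_right _ _)))) x hx
    rw [e1, e2, e3]
    exact h5

theorem sq_le2 (n : ℕ) (hn : 6 ≤ n) : n ^ 2 + 2 * n + 4 ≤ 2 ^ n := by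
  induction n, hn using Nat.le_induction with
  | base => norm_num
  | succ n hn ih =>
    rw [pow_succ 2 n]
    nlinarith

theorem gen_tables {W : ℕ → Finset (List Bool)} (hW : ∀ n, (W n).card < 2 ^ 2 ^ n)
    {Yes No : Oracle → List Bool → List Bool → Prop}
    (hC : ∀ᶠ n : ℕ in atTop, ∃ r : ℕ, HasCert2 n r (W n) Yes No ∧ r ≤ 2 ^ n ^ 2)
    (hY : Fin' W Yes) (hN : Fin' W No) :
    ∀ᶠ A in residual Oracle, ∃ᶠ n in atTop, ∀ w ∈ W n, ∃ x : List Bool, x.length = n ∧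
      ¬ ((x ∈ LL A → Yes A w x) ∧ (x ∉ LL A → No A w x)) := by
  refine resid_freq ?_ fun n => ?_
  · filter_upwards [hC, eventually_ge_atTop 6] with n ⟨r, hr, hr2⟩ hn B hB
    refine tables hr hB ?_ (hW n)
    calc (W n).card * (2 ^ n * r) ≤ 2 ^ 2 ^ n * (2 ^ n * 2 ^ n ^ 2) := by
          gcongr
          exact (hW n).le
      _ = 2 ^ (2 ^ n + (n + n ^ 2)) := by
          rw [← pow_add, ← pow_add]
      _ < 2 ^ 2 ^ (n + 1) := by
          apply Nat.pow_lt_pow_right (by norm_num)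
          have := sq_le2 n hn
          rw [pow_succ 2 n]
          omega
  · obtain ⟨N₁, h1⟩ := hY n
    obtain ⟨N₂, h2⟩ := hN n
    obtain ⟨N₃, h3⟩ := Fin'.symm_ll n
    refine ⟨max N₁ (max N₂ N₃), fun A A' hA hbad w hw => ?_⟩
    obtain ⟨x, hx, h4⟩ := hbad w hw
    refine ⟨x, hx, fun h5 => h4 ?_⟩
    have e1 := h1 A A' (fun v hv => hA v (lt_of_lt_of_le hv (le_max_left _ _))) w hw x hx
    have e2 := h2 A A' (fun v hv => hA v (lt_of_lt_of_le hv ((le_max_left _ _).trans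
      (le_max_right _ _)))) w hw x hx
    have e3 := h3 A A' (fun v hv => hA v (lt_of_lt_of_le hv ((le_max_right _ _).trans
      (le_max_right _ _)))) x hx
    rw [e1, e2, e3]
    exact h5

end Pool.Agent.J6H56.GA
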