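import Pool.Agent.J6H7.RO.Dtr
import Pool.Agent.J6H7.RO.Num
import Pool.Agent.H591R3.PHG.Defs
import Pool.Agent.J6H56.GA.Chain

/-!
# Oracles with late information: certificates
-/

set_option autoImplicit false

namespace Pool.Agent.J6H56.GA

open Pool.Agent.NPC Pool.Agent.H620R2.Gauge Filter
open Pool.Agent.J6H7.RO (outV eval_le_pow)

/-- The oracle `O A` contains `A` and further information about `A`, which comes late: the other
strings of length at most `N ^ c` depend on the strings of length less than `N` of `A` only. -/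
structure LateG (pre : List Bool) (O : Oracle → Oracle) : Prop where
  /-- the strings with the prefix `pre` are the strings of `A` -/
  direct : ∀ A x, O A (pre ++ x) = A x
  /-- the other strings of polynomial length do not depend on the long strings of `A` -/
  slow : ∀ c : ℕ, ∀ᶠ N : ℕ in atTop, ∀ A A' : Oracle,
    (∀ u : List Bool, u.length < N → A u = A' u) →
      ∀ q : List Bool, q.length ≤ N ^ c → (∀ x, q ≠ pre ++ x) → O A q = O A' q

theorem pow_bound (P : Polynomial ℕ) : ∃ c : ℕ, ∀ᶠ N : ℕ in atTop, P.eval N ≤ N ^ c := by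
  refine ⟨P.natDegree + 1, ?_⟩
  filter_upwards [eventually_ge_atTop (max 1 (P.eval 1))] with N hN
  have h1 : 1 ≤ N := (le_max_left _ _).trans hN
  have h2 : P.eval 1 ≤ N := (le_max_right _ _).trans hN
  refine (eval_le_pow _ h1).trans ?_
  rw [pow_succ, mul_comm]
  exact Nat.mul_le_mul_left _ h2

/-- the outputs have small certificates -/
theorem cert {pre : List Bool} {O : Oracle → Oracle} (hO : LateG pre O) (M : Alg)
    (P : Polynomial ℕ) : ∀ᶠ N : ℕ in atTop, ∀ (A : Oracle) (y : List Bool),
      y.length ≤ P.eval N → ∃ Q : Finset (List Bool), Q.card ≤ M.p.eval (P.eval N) ∧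
        ∀ A' : Oracle, (∀ v : List Bool, v.length < N → A v = A' v) → (∀ v ∈ Q, A' v = A v) →
          outV M (O A') y = outV M (O A) y := by
  classical
  obtain ⟨qb, hqb⟩ := Alg.out_local M
  obtain ⟨c, hc⟩ := pow_bound (qb.comp P)
  filter_upwards [hc, hO.slow c] with N h1 h2 A y hy
  obtain ⟨Q, hQ1, hQ2, hQ3⟩ := hqb (O A) y
  refine ⟨Q.image (List.drop pre.length), Finset.card_image_le.trans (hQ1.trans (eval_mono _ hy)),
    fun A' hA' hQA => ?_⟩
  have h3 : M.out (O A') y = M.out (O A) y := by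
    refine hQ3 _ fun q hq => ?_
    by_cases hpre : ∃ x, q = pre ++ x
    · obtain ⟨x, rfl⟩ := hpre
      rw [hO.direct, hO.direct]
      refine hQA x ?_
      rw [Finset.mem_image]
      exact ⟨_, hq, by simp⟩
    · push Not at hpre
      refine (h2 A A' hA' q ?_ hpre).symm
      refine (hQ2 q hq).trans (le_trans ?_ h1)
      rw [Polynomial.eval_comp]
      exact eval_mono _ hy
  unfold outV
  rw [h3]

/-- the outputs depend on short strings only -/
theorem far {pre : List Bool} {O : Oracle → Oracle} (hO : LateG pre O) (M : Alg)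
    (b : ℕ) : ∀ᶠ N : ℕ in atTop, ∀ (A A' : Oracle) (y : List Bool), y.length ≤ b →
      (∀ v : List Bool, v.length < N → A v = A' v) → outV M (O A') y = outV M (O A) y := by
  obtain ⟨qb, hqb⟩ := Alg.out_local M
  filter_upwards [eventually_ge_atTop (qb.eval b + 1), hO.slow 1] with N h1 h2 A A' y hy hA
  obtain ⟨Q, hQ1, hQ2, hQ3⟩ := hqb (O A) y
  have h3 : M.out (O A') y = M.out (O A) y := by
    refine hQ3 _ fun q hq => ?_
    have hlen : q.length < N := lt_of_le_of_lt ((hQ2 q hq).trans (eval_mono _ hy)) h1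
    by_cases hpre : ∃ x, q = pre ++ x
    · obtain ⟨x, rfl⟩ := hpre
      rw [hO.direct, hO.direct]
      rw [List.length_append] at hlen
      exact (hA x (by omega)).symm
    · push Not at hpre
      exact (h2 A A' hA q (by rw [pow_one]; exact hlen.le) hpre).symm
  unfold outV
  rw [h3]

/-- strings below a length determine `LL` on short strings -/
theorem ll_congr {A A' : Oracle} {x : List Bool} {N : ℕ}
    (hN : 3 * (pd x).length + 2 ≤ N) (h : ∀ v : List Bool, v.length < N → A v = A' v) :
    x ∈ LL A ↔ x ∈ LL A' := by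
  refine exists_congr fun u => and_congr_right fun hu => ?_
  rw [h (wd x u)]
  unfold wd
  rw [Pool.Agent.H620R2.Gauge.length_pairBits]
  omega

/-- exponentials of powers of two beat polynomials -/
theorem big (P : Polynomial ℕ) : ∀ᶠ n : ℕ in atTop, P.eval (2 ^ (n + 1)) ≤ 2 ^ n ^ 2 := by
  filter_upwards [eventually_ge_atTop (P.natDegree + P.eval 1 + P.natDegree + 2)] with n h1
  have h3 : P.eval (2 ^ (n + 1)) ≤ P.eval 1 * (2 ^ (n + 1)) ^ P.natDegree :=
    eval_le_pow P Nat.one_le_two_pow
  have h4 : P.eval 1 ≤ 2 ^ P.eval 1 := Nat.lt_two_pow_self.le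
  calc P.eval (2 ^ (n + 1)) ≤ P.eval 1 * (2 ^ (n + 1)) ^ P.natDegree := h3
    _ ≤ 2 ^ P.eval 1 * (2 ^ (n + 1)) ^ P.natDegree := Nat.mul_le_mul_right _ h4
    _ = 2 ^ (P.eval 1 + (n + 1) * P.natDegree) := by rw [← pow_mul, ← pow_add]
    _ ≤ 2 ^ n ^ 2 := by
      apply Nat.pow_le_pow_right (by norm_num)
      have h5 : P.natDegree + P.eval 1 + P.natDegree + 2 ≤ n := h1
      nlinarith

theorem sq_le (n : ℕ) (hn : 6 ≤ n) : n ^ 2 + 4 * n + 4 ≤ 2 ^ (n + 1) := by
  induction n, hn using Nat.le_induction with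
  | base => norm_num
  | succ n hn ih =>
    rw [pow_succ 2 (n + 1)]
    nlinarith

end Pool.Agent.J6H56.GA
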