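import Pool.Agent.J6H56.GA.Reqs
import Pool.Agent.J6H49.EE.Main

/-!
# Advice for the complements of the languages in `NE`
-/

set_option autoImplicit false

namespace Pool.Agent.J6H56.GA

open Pool.Agent.NPC Pool.Agent.H620R2.Gauge Pool.Agent.H622R2 Pool.Agent.H591R3.PHG Filter
open Pool.Agent.J6H7.RO (outV)
open Pool.Agent.TH678.GC (join)
open Pool.Agent.TH678.RS (bt)
open Pool.Agent.Y626.WX (Cp cod agree_emb exists_cp)
open Pool.Agent.J6H49.PHC (far join_agree)
open Pool.Agent.J6H49.EE (padE LinExp InExpTime slow slow_mono slow_tendsto time_espace)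
open Pool.Agent.J6H49.AM (pr)
open Pool.Agent.J6H49.IP (talk Accepts)

variable {g : ℕ → SAlg × Polynomial ℕ} {S : ℕ → Polynomial ℕ} {Φ : Oracle → Oracle}

/-- the oracle -/
def orc (Φ : Oracle → Oracle) (E₀ A : Oracle) : Oracle :=
  join (join A E₀) (cod Φ (join A E₀))

theorem lateG {α : ℕ → ℕ} (hα : Monotone α) (hα' : Tendsto α atTop atTop)
    (hc : Cp g S (bt α) Φ) (E₀ : Oracle) :
    LateG [false, false] (Pool.Agent.J6H56.GA.orc Φ E₀) := by
  refine ⟨fun A x => rfl, fun c => ?_⟩
  filter_upwards [Pool.Agent.J6H49.PHC.far hα hα' c] with N hN A A' hA q hq hpre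
  have h1 := agree_emb hc (L := N) (T := N ^ c) hN (A := join A E₀) (A' := join A' E₀)
    (join_agree fun u hu => hA u (by omega)) q hq
  show join (join A E₀) (cod Φ (join A E₀)) q = join (join A' E₀) (cod Φ (join A' E₀)) q
  rw [h1]
  match q with
  | [] => rfl
  | false :: [] => rfl
  | false :: false :: x => exact absurd rfl (hpre x)
  | false :: true :: x => rfl
  | true :: x => rfl

/-- the language is in `NE` -/
theorem ll_mem {B A : Oracle} (hB : ∀ x, B ([false, false] ++ x) = A x) :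
    LinExp (IsSig B 1) (LL A) := by
  refine ⟨1, {z | ∃ u : List Bool, u.length ≤ z.length ∧ A (pairBits u z) = true},
    ⟨fun y => [B ([false, false] ++ y)], Polynomial.X, ?_, fun z => ?_⟩, fun x => Iff.rfl⟩
  · exact Pool.Agent.TH678.WP.isFP_ask' B
      (q := fun y => [false, false] ++ y) (NPC.Poly.append (NPC.Poly.const _) NPC.Poly.id)
  · rw [Polynomial.eval_X]
    refine exists_congr fun u => and_congr_right fun _ => ?_
    show _ ↔ [B ([false, false] ++ pairBits u z)] = [true]
    rw [hB]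
    simp

theorem outV_of {M : Alg} {B : Oracle} {V : List Bool → List Bool}
    (hM : ∀ x, M.out B x = some (V x)) : outV M B = V := by
  funext y
  unfold outV
  rw [hM]
  rfl

section

variable {pre : List Bool} {O : Oracle → Oracle}

theorem res_N (hO : LateG pre O) {W : ℕ → Finset (List Bool)} (hW : ∀ n, (W n).card ≤ 2 ^ n)
    (hW2 : ∀ n, ∀ w ∈ W n, w.length ≤ n) :
    ∀ᶠ A in residual Oracle, ∀ S : Set (List Bool), LinExp (IsSig (O A) 1) S →
      ∃ᶠ n in atTop, ∀ w ∈ W n, ∃ x : List Bool, x.length = n ∧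
        ¬ (pairBits x w ∈ S ↔ x ∈ (LL A)ᶜ) := by
  have h1 : ∀ᶠ A in residual Oracle, ∀ (M : Alg) (p : Polynomial ℕ) (c : ℕ),
      ∃ᶠ n in atTop, ∀ w ∈ W n, ∃ x : List Bool, x.length = n ∧
        ¬ ((x ∉ LL A → AccN O M p c A w x) ∧ (x ∈ LL A → ¬ AccN O M p c A w x)) := by
    have : Countable (Polynomial ℕ) := CC.poly_countable
    rw [eventually_countable_forall]
    intro M
    rw [eventually_countable_forall]
    intro p
    rw [eventually_countable_forall]
    intro c
    exact gen_chain hW (cert_accN hO M p c hW2) (fin_accN hO hW2) (fin_accN hO hW2).not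
  filter_upwards [h1] with A hA S hS
  obtain ⟨c, S', ⟨V, p, ⟨M, hM⟩, hL⟩, hx⟩ := hS
  refine (hA M p c).mono fun n hn w hw => ?_
  obtain ⟨x, hx1, hx2⟩ := hn w hw
  refine ⟨x, hx1, fun hcon => hx2 ?_⟩
  have h2 : pairBits x w ∈ S ↔ AccN O M p c A w x := by
    rw [hx, hL]
    unfold AccN
    rw [outV_of hM]
    rfl
  rw [h2] at hcon
  exact ⟨fun h => hcon.2 h, fun h h3 => hcon.1 h3 h⟩

theorem res_I (hO : LateG pre O) {W : ℕ → Finset (List Bool)} (hW : ∀ n, (W n).card ≤ 2 ^ n)
    (hW2 : ∀ n, ∀ w ∈ W n, w.length ≤ n) :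
    ∀ᶠ A in residual Oracle, ∀ (V : List Bool → List Bool) (p : Polynomial ℕ) (c : ℕ),
      IsFP (O A) V → ∃ᶠ n in atTop, ∀ w ∈ W n, ∃ x : List Bool, x.length = n ∧
        ¬ ((x ∈ (LL A)ᶜ → ∃ P : List (List Bool) → List Bool,
            2 / 3 ≤ pr (p.eval (padE c (pairBits x w)).length) fun r =>
              Accepts V P (p.eval (padE c (pairBits x w)).length) (padE c (pairBits x w)) r) ∧
          (x ∉ (LL A)ᶜ → ∀ P : List (List Bool) → List Bool,
            (pr (p.eval (padE c (pairBits x w)).length) fun r =>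
              Accepts V P (p.eval (padE c (pairBits x w)).length)
                (padE c (pairBits x w)) r) ≤ 1 / 3)) := by
  have h1 : ∀ᶠ A in residual Oracle, ∀ (M : Alg) (p : Polynomial ℕ) (c : ℕ),
      ∃ᶠ n in atTop, ∀ w ∈ W n, ∃ x : List Bool, x.length = n ∧
        ¬ ((x ∉ LL A → YesI O M p c A w x) ∧ (x ∈ LL A → NoI O M p c A w x)) := by
    have : Countable (Polynomial ℕ) := CC.poly_countable
    rw [eventually_countable_forall]
    intro M
    rw [eventually_countable_forall]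
    intro p
    rw [eventually_countable_forall]
    intro c
    exact gen_chain hW (cert_I hO M p c hW2) (fin_yesI hO hW2) (fin_noI hO hW2)
  filter_upwards [h1] with A hA V p c hV
  obtain ⟨M, hM⟩ := hV
  refine (hA M p c).mono fun n hn w hw => ?_
  obtain ⟨x, hx1, hx2⟩ := hn w hw
  refine ⟨x, hx1, fun hcon => hx2 ?_⟩
  unfold YesI NoI
  rw [outV_of hM]
  exact ⟨hcon.1, fun h => hcon.2 fun h3 => h3 h⟩

theorem res_D (hO : LateG pre O) {W : ℕ → Finset (List Bool)} (hW : ∀ n, (W n).card < 2 ^ 2 ^ n)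
    (hW2 : ∀ n, ∀ w ∈ W n, w.length ≤ 2 ^ n) :
    ∀ᶠ A in residual Oracle, ∀ (V : List Bool → List Bool) (c : ℕ), IsFP (O A) V →
      ∃ᶠ n in atTop, ∀ w ∈ W n, ∃ x : List Bool, x.length = n ∧
        ¬ (V (pairBits (padE c x) w) = [true] ↔ x ∈ LL A) := by
  have h1 : ∀ᶠ A in residual Oracle, ∀ (M : Alg) (c : ℕ),
      ∃ᶠ n in atTop, ∀ w ∈ W n, ∃ x : List Bool, x.length = n ∧
        ¬ ((x ∈ LL A → AccD O M c A w x) ∧ (x ∉ LL A → ¬ AccD O M c A w x)) := by
    rw [eventually_countable_forall]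
    intro M
    rw [eventually_countable_forall]
    intro c
    exact gen_tables hW (cert_D hO M c hW2) (fin_D hO hW2) (fin_D hO hW2).not
  filter_upwards [h1] with A hA V c hV
  obtain ⟨M, hM⟩ := hV
  refine (hA M c).mono fun n hn w hw => ?_
  obtain ⟨x, hx1, hx2⟩ := hn w hw
  refine ⟨x, hx1, fun hcon => hx2 ?_⟩
  unfold AccD
  rw [outV_of hM]
  exact ⟨hcon.2, fun h h3 => h (hcon.1 h3)⟩

theorem res_B (hO : LateG pre O) {W : ℕ → Finset (List Bool)} (hW : ∀ n, (W n).card < 2 ^ 2 ^ n)
    (hW2 : ∀ n, ∀ w ∈ W n, w.length ≤ 2 ^ n) :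
    ∀ᶠ A in residual Oracle, ∀ (V : List Bool → List Bool) (p : Polynomial ℕ) (c : ℕ),
      IsFP (O A) V → ∃ᶠ n in atTop, ∀ w ∈ W n, ∃ x : List Bool, x.length = n ∧
        ¬ ((x ∈ LL A → 2 / 3 ≤ pr (p.eval (padE c x).length) fun r =>
            V (pairBits (padE c x) (pairBits w r)) = [true]) ∧
          (x ∉ LL A → (pr (p.eval (padE c x).length) fun r =>
            V (pairBits (padE c x) (pairBits w r)) = [true]) ≤ 1 / 3)) := by
  have h1 : ∀ᶠ A in residual Oracle, ∀ (M : Alg) (p : Polynomial ℕ) (c : ℕ),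
      ∃ᶠ n in atTop, ∀ w ∈ W n, ∃ x : List Bool, x.length = n ∧
        ¬ ((x ∈ LL A → 2 / 3 ≤ prB O M p c A w x) ∧
          (x ∉ LL A → prB O M p c A w x ≤ 1 / 3)) := by
    have : Countable (Polynomial ℕ) := CC.poly_countable
    rw [eventually_countable_forall]
    intro M
    rw [eventually_countable_forall]
    intro p
    rw [eventually_countable_forall]
    intro c
    exact gen_tables hW (cert_B hO M p c hW2) (fin_B1 hO hW2) (fin_B2 hO hW2)
  filter_upwards [h1] with A hA V p c hV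
  obtain ⟨M, hM⟩ := hV
  refine (hA M p c).mono fun n hn w hw => ?_
  obtain ⟨x, hx1, hx2⟩ := hn w hw
  refine ⟨x, hx1, fun hcon => hx2 ?_⟩
  unfold prB
  rw [outV_of hM]
  exact hcon

end

/-- **The main theorem.** -/
theorem main (β : ℕ → ℕ) (hβ : Monotone β) (hβ' : Tendsto β atTop atTop) :
    ∃ E : Oracle → Oracle,
      (∀ B : Oracle, ∀ L, LinExp (IsPSPACE (join B (E B))) L → InExpTime β (join B (E B)) L) ∧
      ∀ E₀ : Oracle,
        (∀ W : ℕ → Finset (List Bool), (∀ n, (W n).card ≤ 2 ^ n) →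
          (∀ n, ∀ w ∈ W n, w.length ≤ n) →
          ∀ᶠ A in residual Oracle, ∃ L : Set (List Bool),
            LinExp (IsSig (join (join A E₀) (E (join A E₀))) 1) L ∧
            (∀ S : Set (List Bool), LinExp (IsSig (join (join A E₀) (E (join A E₀))) 1) S →
              ∃ᶠ n in atTop, ∀ w ∈ W n, ∃ x : List Bool, x.length = n ∧
                ¬ (pairBits x w ∈ S ↔ x ∈ Lᶜ)) ∧
            ∀ (V : List Bool → List Bool) (p : Polynomial ℕ) (c : ℕ),
              IsFP (join (join A E₀) (E (join A E₀))) V →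
              ∃ᶠ n in atTop, ∀ w ∈ W n, ∃ x : List Bool, x.length = n ∧
              ¬ ((x ∈ Lᶜ → ∃ P : List (List Bool) → List Bool,
                  2 / 3 ≤ pr (p.eval (padE c (pairBits x w)).length) fun r =>
                    Accepts V P (p.eval (padE c (pairBits x w)).length)
                      (padE c (pairBits x w)) r) ∧
                (¬ x ∈ Lᶜ → ∀ P : List (List Bool) → List Bool,
                  (pr (p.eval (padE c (pairBits x w)).length) fun r =>
                    Accepts V P (p.eval (padE c (pairBits x w)).length)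
                      (padE c (pairBits x w)) r) ≤ 1 / 3))) ∧
        ∀ W : ℕ → Finset (List Bool), (∀ n, (W n).card < 2 ^ 2 ^ n) →
          (∀ n, ∀ w ∈ W n, w.length ≤ 2 ^ n) →
          ∀ᶠ A in residual Oracle, ∃ L : Set (List Bool),
            LinExp (IsSig (join (join A E₀) (E (join A E₀))) 1) L ∧
            (∀ (V : List Bool → List Bool) (c : ℕ), IsFP (join (join A E₀) (E (join A E₀))) V →
              ∃ᶠ n in atTop, ∀ w ∈ W n, ∃ x : List Bool, x.length = n ∧
                ¬ (V (pairBits (padE c x) w) = [true] ↔ x ∈ L)) ∧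
            ∀ (V : List Bool → List Bool) (p : Polynomial ℕ) (c : ℕ),
              IsFP (join (join A E₀) (E (join A E₀))) V →
              ∃ᶠ n in atTop, ∀ w ∈ W n, ∃ x : List Bool, x.length = n ∧
              ¬ ((x ∈ L → 2 / 3 ≤ pr (p.eval (padE c x).length) fun r =>
                  V (pairBits (padE c x) (pairBits w r)) = [true]) ∧
                (x ∉ L → (pr (p.eval (padE c x).length) fun r =>
                  V (pairBits (padE c x) (pairBits w r)) = [true]) ≤ 1 / 3)) := by
  obtain ⟨g, hg⟩ := CC.exists_enum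
  obtain ⟨S, Φ, hc⟩ := exists_cp g (bt (slow β))
  refine ⟨cod Φ, fun B L hL => time_espace hg hβ hc B hL, fun E₀ => ⟨fun W hW hW2 => ?_,
    fun W hW hW2 => ?_⟩⟩
  · have hO := lateG (slow_mono hβ) (slow_tendsto hβ') hc E₀
    filter_upwards [res_N hO hW hW2, res_I hO hW hW2] with A h1 h2
    exact ⟨LL A, ll_mem (B := join (join A E₀) (cod Φ (join A E₀))) fun x => rfl, h1, h2⟩
  · have hO := lateG (slow_mono hβ) (slow_tendsto hβ') hc E₀
    filter_upwards [res_D hO hW hW2, res_B hO hW hW2] with A h1 h2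
    exact ⟨LL A, ll_mem (B := join (join A E₀) (cod Φ (join A E₀))) fun x => rfl, h1, h2⟩

end Pool.Agent.J6H56.GA
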