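import Pool.Agent.J6H56.GA.ReqsU

/-!
# Unambiguous linear-exponential time
-/

set_option autoImplicit false

namespace Pool.Agent.J6H56.GA

open Pool.Agent.NPC Pool.Agent.H620R2.Gauge Pool.Agent.H622R2 Pool.Agent.H591R3.PHG Filter
open Pool.Agent.TH678.GC (join)
open Pool.Agent.TH678.RS (bt)
open Pool.Agent.Y626.WX (Cp cod agree_emb exists_cp)
open Pool.Agent.J6H49.EE (padE LinExp InExpTime slow slow_mono slow_tendsto time_espace)
open Pool.Agent.J6H49.AM (pr)

/-- The class `UP` relative to the oracle `B`: nondeterministic polynomial time with at most one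
witness for every input. -/
def IsUP (B : Oracle) (L : Set (List Bool)) : Prop :=
  ∃ (V : List Bool → List Bool) (p : Polynomial ℕ), IsFP B V ∧
    (∀ x : List Bool, x ∈ L ↔ ∃ u : List Bool, u.length ≤ p.eval x.length ∧
      V (pairBits u x) = [true]) ∧
    ∀ x u u' : List Bool, V (pairBits u x) = [true] → V (pairBits u' x) = [true] → u = u'

theorem ls_mem {B : Oracle} {s : Secret} (hB : ∀ x, B ([false, false] ++ x) = ora s x) (b : Bool) :
    LinExp (IsUP B) {x | (s x).2 = b} := by
  refine ⟨1, {z | ∃ u : List Bool, u.length ≤ z.length ∧ ora s (b :: pairBits u z) = true},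
    ⟨fun y => [B ([false, false] ++ (b :: y))], Polynomial.X, ?_, fun z => ?_, ?_⟩, fun x => ?_⟩
  · exact Pool.Agent.TH678.WP.isFP_ask' B
      (q := fun y => [false, false] ++ (b :: y)) (NPC.Poly.append (NPC.Poly.const _)
        (NPC.Poly.cons (NPC.Poly.const b) NPC.Poly.id))
  · rw [Polynomial.eval_X]
    refine exists_congr fun u => and_congr_right fun _ => ?_
    show _ ↔ [B ([false, false] ++ (b :: pairBits u z))] = [true]
    rw [hB]
    simp
  · intro z u u' h h'
    have key : ∀ u : List Bool, [B ([false, false] ++ (b :: pairBits u z))] = [true] →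
        ∃ x, z = pd x ∧ u = List.ofFn (s x).1 := by
      intro u h
      rw [hB] at h
      have h1 : ora s (b :: pairBits u z) = true := by simpa using h
      rw [ora_iff] at h1
      obtain ⟨x, hx⟩ := h1
      rw [List.cons_eq_cons] at hx
      have h2 := congrArg unpair hx.2
      unfold wd at h2
      rw [unpair_pairBits, unpair_pairBits, Prod.mk.injEq] at h2
      exact ⟨x, h2.2, h2.1⟩
    obtain ⟨x, hx1, hx2⟩ := key u h
    obtain ⟨x', hx1', hx2'⟩ := key u' h'
    have h3 : x = x' := by
      have h4 := congrArg unpair (hx1.symm.trans hx1')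
      unfold pd at h4
      rw [unpair_pairBits, unpair_pairBits, Prod.mk.injEq] at h4
      exact h4.1
    subst h3
    rw [hx2, hx2']
  · show (s x).2 = b ↔ ∃ u : List Bool, u.length ≤ (pd x).length ∧ ora s (b :: wd x u) = true
    constructor
    · intro hb
      refine ⟨List.ofFn (s x).1, ?_, ?_⟩
      · rw [List.length_ofFn, length_pd]
        omega
      · rw [ora_iff]
        exact ⟨x, by rw [hb]⟩
    · rintro ⟨u, _, h⟩
      rw [ora_iff] at h
      obtain ⟨x', hx'⟩ := h
      rw [List.cons_eq_cons] at hx'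
      have h2 := (wd_inj hx'.2).1
      rw [h2]
      exact hx'.1.symm

/-- **The main theorem.** -/
theorem mainU (β : ℕ → ℕ) (hβ : Monotone β) (hβ' : Tendsto β atTop atTop) :
    ∃ E : Oracle → Oracle,
      (∀ B : Oracle, ∀ L, LinExp (IsPSPACE (join B (E B))) L → InExpTime β (join B (E B)) L) ∧
      ∀ (E₀ : Oracle) (W : ℕ → Finset (List Bool)) (t : ℕ → ℕ), (∀ n, t n ≤ 2 ^ n) →
        (∀ n, (W n).card * ∑ i ∈ Finset.Icc (t n) (2 ^ n), (2 ^ n).choose i < 2 ^ 2 ^ n) →
        (∀ n, ∀ w ∈ W n, w.length ≤ 2 ^ n) →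
        ∀ᶠ s in residual Secret, ∃ L : Set (List Bool),
          LinExp (IsUP (join (join (ora s) E₀) (E (join (ora s) E₀)))) L ∧
          LinExp (IsUP (join (join (ora s) E₀) (E (join (ora s) E₀)))) Lᶜ ∧
          (∀ (V : List Bool → List Bool) (c : ℕ),
            IsFP (join (join (ora s) E₀) (E (join (ora s) E₀))) V →
            ∃ᶠ n in atTop, ∀ w ∈ W n, {x : List Bool | x.length = n ∧
              (V (pairBits (padE c x) w) = [true] ↔ x ∈ L)}.ncard < t n) ∧
          ∀ (V : List Bool → List Bool) (p : Polynomial ℕ) (c : ℕ),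
            IsFP (join (join (ora s) E₀) (E (join (ora s) E₀))) V →
            ∃ᶠ n in atTop, ∀ w ∈ W n, {x : List Bool | x.length = n ∧
              ((x ∈ L → 2 / 3 ≤ pr (p.eval (padE c x).length) fun r =>
                V (pairBits (padE c x) (pairBits w r)) = [true]) ∧
              (x ∉ L → (pr (p.eval (padE c x).length) fun r =>
                V (pairBits (padE c x) (pairBits w r)) = [true]) ≤ 1 / 3))}.ncard < t n := by
  obtain ⟨g, hg⟩ := CC.exists_enum
  obtain ⟨S, Φ, hc⟩ := exists_cp g (bt (slow β))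
  refine ⟨cod Φ, fun B L hL => time_espace hg hβ hc B hL, fun E₀ W t ht hW hW2 => ?_⟩
  have hO := lateG (slow_mono hβ) (slow_tendsto hβ') hc E₀
  filter_upwards [res_DU hO ht hW hW2, res_BU hO ht hW hW2] with s h1 h2
  refine ⟨LS s, ls_mem (s := s) (fun x => rfl) true, ?_, h1, h2⟩
  have h3 : (LS s)ᶜ = {x | (s x).2 = false} := by
    ext x
    unfold LS
    rw [Set.mem_compl_iff, Set.mem_ofPred_eq, Set.mem_ofPred_eq, Bool.not_eq_true]
  rw [h3]
  exact ls_mem (s := s) (fun x => rfl) false

end Pool.Agent.J6H56.GA
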