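import Pool.Agent.J6H49.IP.Run

/-!
# Few strings are asked about with a large probability
-/

set_option autoImplicit false

namespace Pool.Agent.J6H56.GA

open Pool.Agent.NPC Finset
open Pool.Agent.J6H49.AM (pr)
open Pool.Agent.J6H49.IP (talk Accepts talk_length il input_length)

open Classical in
/-- the strings asked about with a large probability -/
theorem heavy {m r : ℕ} (t : ℕ) (Q : (Fin m → Bool) → Finset (List Bool))
    (hQ : ∀ ω, (Q ω).card ≤ r) :
    ∃ H : Finset (List Bool), H.card ≤ 2 ^ t * r ∧ ∀ D : Finset (List Bool), (∀ v ∈ D, v ∉ H) →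
      2 ^ t * (univ.filter fun ω => ∃ v ∈ D, v ∈ Q ω).card ≤ D.card * 2 ^ m := by
  set cn : List Bool → ℕ := fun v => (univ.filter fun ω => v ∈ Q ω).card with hcn
  set U := univ.biUnion Q with hU
  have hsum : ∑ v ∈ U, cn v ≤ 2 ^ m * r := by
    have h1 : ∑ v ∈ U, cn v = ∑ ω : Fin m → Bool, (Q ω).card := by
      simp only [hcn, card_filter]
      rw [sum_comm]
      refine sum_congr rfl fun ω _ => ?_
      rw [← card_filter]
      congr 1
      ext v
      rw [mem_filter]
      refine ⟨fun h => h.2, fun h => ⟨?_, h⟩⟩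
      rw [hU]
      exact mem_biUnion.2 ⟨ω, mem_univ _, h⟩
    rw [h1]
    calc ∑ ω : Fin m → Bool, (Q ω).card ≤ ∑ _ω : Fin m → Bool, r := sum_le_sum fun ω _ => hQ ω
      _ = 2 ^ m * r := by
        rw [sum_const, card_univ, Fintype.card_fun, Fintype.card_bool, Fintype.card_fin,
          smul_eq_mul]
  refine ⟨U.filter fun v => 2 ^ m < 2 ^ t * cn v, ?_, fun D hD => ?_⟩
  · have h2 : (U.filter fun v => 2 ^ m < 2 ^ t * cn v).card * 2 ^ m ≤ 2 ^ t * r * 2 ^ m := by
      calc (U.filter fun v => 2 ^ m < 2 ^ t * cn v).card * 2 ^ m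
          = ∑ _v ∈ U.filter (fun v => 2 ^ m < 2 ^ t * cn v), 2 ^ m := by
            rw [sum_const, smul_eq_mul]
        _ ≤ ∑ v ∈ U.filter (fun v => 2 ^ m < 2 ^ t * cn v), 2 ^ t * cn v :=
            sum_le_sum fun v hv => (mem_filter.1 hv).2.le
        _ ≤ ∑ v ∈ U, 2 ^ t * cn v :=
            sum_le_sum_of_subset (filter_subset _ _)
        _ = 2 ^ t * ∑ v ∈ U, cn v := by rw [mul_sum]
        _ ≤ 2 ^ t * (2 ^ m * r) := Nat.mul_le_mul_left _ hsum
        _ = _ := by ring
    exact Nat.le_of_mul_le_mul_right h2 (by positivity)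
  · have h3 : ∀ v ∈ D, 2 ^ t * cn v ≤ 2 ^ m := by
      intro v hv
      have h4 := hD v hv
      rw [mem_filter, not_and, not_lt] at h4
      by_cases h5 : v ∈ U
      · exact h4 h5
      · have h6 : cn v = 0 := by
          simp only [hcn]
          rw [card_eq_zero, filter_eq_empty_iff]
          intro ω _ h7
          apply h5
          rw [hU]
          exact mem_biUnion.2 ⟨ω, mem_univ _, h7⟩
        rw [h6, mul_zero]
        exact Nat.zero_le _
    have h4 : (univ.filter fun ω => ∃ v ∈ D, v ∈ Q ω).card ≤ ∑ v ∈ D, cn v := by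
      refine le_trans (card_le_card ?_) card_biUnion_le
      intro ω hω
      rw [mem_filter] at hω
      obtain ⟨v, hv, h5⟩ := hω.2
      exact mem_biUnion.2 ⟨v, hv, mem_filter.2 ⟨mem_univ _, h5⟩⟩
    calc 2 ^ t * (univ.filter fun ω => ∃ v ∈ D, v ∈ Q ω).card ≤ 2 ^ t * ∑ v ∈ D, cn v :=
          Nat.mul_le_mul_left _ h4
      _ = ∑ v ∈ D, 2 ^ t * cn v := by rw [mul_sum]
      _ ≤ ∑ _v ∈ D, 2 ^ m := sum_le_sum h3
      _ = D.card * 2 ^ m := by rw [sum_const, smul_eq_mul]

theorem pr_le {m : ℕ} {E E' : List Bool → Prop} {F : (Fin m → Bool) → Prop} [DecidablePred F]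
    (h : ∀ ω : Fin m → Bool, E (List.ofFn ω) → E' (List.ofFn ω) ∨ F ω) :
    pr m E ≤ pr m E' + ((univ.filter F).card : ℝ) / 2 ^ m := by
  classical
  unfold pr
  rw [← add_div]
  refine div_le_div_of_nonneg_right ?_ (by positivity)
  rw [← Nat.cast_add]
  refine Nat.cast_le.2 (le_trans (card_le_card ?_) (card_union_le _ _))
  intro ω hω
  rw [mem_filter] at hω
  rw [mem_union, mem_filter, mem_filter]
  exact (h ω hω.2).imp (fun h => ⟨mem_univ _, h⟩) (fun h => ⟨mem_univ _, h⟩)

theorem pr_congr {m : ℕ} {E E' : List Bool → Prop}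
    (h : ∀ ω : List Bool, ω.length = m → (E ω ↔ E' ω)) : pr m E = pr m E' := by
  classical
  unfold pr
  congr 3
  ext ω
  rw [mem_filter, mem_filter, h _ (List.length_ofFn)]

theorem hit_small {m n : ℕ} {F : (Fin m → Bool) → Prop} [DecidablePred F] {d : ℕ}
    (h : 2 ^ (n + 3) * (univ.filter F).card ≤ d * 2 ^ m) (hd : d ≤ 2 ^ n) :
    ((univ.filter F).card : ℝ) / 2 ^ m ≤ 1 / 8 := by
  rw [div_le_iff₀ (by positivity)]
  have h1 : 2 ^ n * (8 * (univ.filter F).card) ≤ 2 ^ n * 2 ^ m := by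
    calc 2 ^ n * (8 * (univ.filter F).card) = 2 ^ (n + 3) * (univ.filter F).card := by
          rw [pow_add]; ring
      _ ≤ d * 2 ^ m := h
      _ ≤ 2 ^ n * 2 ^ m := Nat.mul_le_mul_right _ hd
  have h2 := Nat.le_of_mul_le_mul_left h1 (by positivity)
  have h3 : (8 : ℝ) * ((univ.filter F).card : ℝ) ≤ 2 ^ m := by exact_mod_cast h2
  linarith

/-- the conversation depends on the values of the verifier on short inputs only -/
theorem talk_congr {V V' : List Bool → List Bool} (P : List (List Bool) → List Bool) {ℓ : ℕ}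
    (z w : List Bool) : ∀ k : ℕ, (∀ i < k, V' (pairBits z (pairBits w (talk V P ℓ z w i).2)) =
      V (pairBits z (pairBits w (talk V P ℓ z w i).2))) → talk V' P ℓ z w k = talk V P ℓ z w k := by
  intro k
  induction k with
  | zero => intro _; rfl
  | succ k ih =>
    intro h
    have h1 := ih fun i hi => h i (by omega)
    have h2 := h k (by omega)
    simp only [talk, h1, h2]

theorem accepts_congr {V V' : List Bool → List Bool} (P : List (List Bool) → List Bool) {ℓ : ℕ}
    (z w : List Bool) (h : ∀ i < ℓ + 1, V' (pairBits z (pairBits w (talk V P ℓ z w i).2)) =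
      V (pairBits z (pairBits w (talk V P ℓ z w i).2))) :
    Accepts V' P ℓ z w ↔ Accepts V P ℓ z w := by
  unfold Accepts
  rw [talk_congr P z w ℓ fun i hi => h i (by omega), h ℓ (by omega)]

end Pool.Agent.J6H56.GA
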