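import Pool.Agent.J6H56.GA.Gen
import Pool.Agent.J6H56.GA.Soft
import Pool.Agent.J6H49.EE.Defs

/-!
# The requirements: nondeterministic machines and interactive proofs with advice
-/

set_option autoImplicit false

namespace Pool.Agent.J6H56.GA

open Pool.Agent.NPC Pool.Agent.H620R2.Gauge Filter
open Pool.Agent.J6H7.RO (outV)
open Pool.Agent.J6H49.EE (padE)
open Pool.Agent.J6H49.AM (pr)
open Pool.Agent.J6H49.IP (talk Accepts talk_length il input_length)

/-- bound for the lengths of the padded strings -/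
noncomputable def plP (c : ℕ) : Polynomial ℕ := 6 * Polynomial.X + Polynomial.X ^ (3 * c)

theorem length_pad_le {c n : ℕ} {x w : List Bool} (hx : x.length = n) (hw : w.length ≤ n) :
    (padE c (pairBits x w)).length ≤ (plP c).eval (2 ^ (n + 1)) := by
  unfold padE plP
  rw [Pool.Agent.H620R2.Gauge.length_pairBits, List.length_replicate,
    Pool.Agent.H620R2.Gauge.length_pairBits, hx]
  simp only [Polynomial.eval_add, Polynomial.eval_mul, Polynomial.eval_X, Polynomial.eval_pow,
    Polynomial.eval_ofNat]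
  have h1 : n + 1 ≤ 2 ^ (n + 1) := Nat.lt_two_pow_self.le
  have h2 : 2 ^ (c * (2 * n + 1 + w.length + 1)) ≤ (2 ^ (n + 1)) ^ (3 * c) := by
    rw [← pow_mul]
    apply Nat.pow_le_pow_right (by norm_num)
    have : 2 * n + 1 + w.length + 1 ≤ 3 * (n + 1) := by omega
    calc c * (2 * n + 1 + w.length + 1) ≤ c * (3 * (n + 1)) := Nat.mul_le_mul_left _ this
      _ = (n + 1) * (3 * c) := by ring
  omega

theorem length_pad_le' {c n : ℕ} {x : List Bool} (hx : x.length = n) :
    (padE c x).length ≤ (plP c).eval (2 ^ (n + 1)) := by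
  unfold padE plP
  rw [Pool.Agent.H620R2.Gauge.length_pairBits, List.length_replicate, hx]
  simp only [Polynomial.eval_add, Polynomial.eval_mul, Polynomial.eval_X, Polynomial.eval_pow,
    Polynomial.eval_ofNat]
  have h1 : n + 1 ≤ 2 ^ (n + 1) := Nat.lt_two_pow_self.le
  have h2 : 2 ^ (c * (n + 1)) ≤ (2 ^ (n + 1)) ^ (3 * c) := by
    rw [← pow_mul]
    apply Nat.pow_le_pow_right (by norm_num)
    nlinarith
  omega

theorem tendsto_two_pow : Tendsto (fun n : ℕ => 2 ^ (n + 1)) atTop atTop :=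
  (tendsto_pow_atTop_atTop_of_one_lt (show 1 < 2 by norm_num)).comp (tendsto_add_atTop_nat 1)

/-- `Q` is a certificate for the output for the input `y` -/
def Crt (O : Oracle → Oracle) (M : Alg) (n : ℕ) (A : Oracle) (y : List Bool)
    (Q : Finset (List Bool)) : Prop :=
  ∀ A' : Oracle, (∀ v : List Bool, v.length < 2 ^ (n + 1) → A v = A' v) → (∀ v ∈ Q, A' v = A v) →
    outV M (O A') y = outV M (O A) y

theorem crt {pre : List Bool} {O : Oracle → Oracle} (hO : LateG pre O) (M : Alg)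
    (P : Polynomial ℕ) : ∀ᶠ n : ℕ in atTop, ∀ (A : Oracle) (y : List Bool),
      y.length ≤ P.eval (2 ^ (n + 1)) → ∃ Q : Finset (List Bool),
        Q.card ≤ (M.p.comp P).eval (2 ^ (n + 1)) ∧ Crt O M n A y Q := by
  filter_upwards [tendsto_two_pow.eventually (cert hO M P)] with n hn A y hy
  obtain ⟨Q, h1, h2⟩ := hn A y hy
  exact ⟨Q, by rwa [Polynomial.eval_comp], h2⟩

theorem Crt.mono {O : Oracle → Oracle} {M : Alg} {n : ℕ} {A : Oracle} {y : List Bool}
    {Q Q' : Finset (List Bool)} (h : Crt O M n A y Q) (hQ : Q ⊆ Q') : Crt O M n A y Q' :=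
  fun A' h1 h2 => h A' h1 fun v hv => h2 v (hQ hv)

theorem Near.short {n : ℕ} {H : Finset (List Bool)} {A A' : Oracle} (h : Near n H A A') :
    ∀ v : List Bool, v.length < 2 ^ (n + 1) → A v = A' v := by
  obtain ⟨D, _, h2, _, h4⟩ := h
  intro v hv
  refine (h4 v fun hvD => ?_).symm
  have := h2 v hvD
  omega

theorem Near.on {n : ℕ} {H : Finset (List Bool)} {A A' : Oracle} (h : Near n H A A') :
    ∀ v ∈ H, A' v = A v := by
  obtain ⟨D, _, _, h3, h4⟩ := h
  intro v hv
  exact h4 v fun hvD => h3 v hvD hv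

section

variable (O : Oracle → Oracle) (M : Alg) (p : Polynomial ℕ) (c : ℕ)

/-- the nondeterministic machine accepts `x` with advice `w` -/
def AccN (A : Oracle) (w x : List Bool) : Prop :=
  ∃ u : List Bool, u.length ≤ p.eval (padE c (pairBits x w)).length ∧
    outV M (O A) (pairBits u (padE c (pairBits x w))) = [true]

/-- some prover convinces the verifier with a large probability -/
def YesI (A : Oracle) (w x : List Bool) : Prop :=
  ∃ P : List (List Bool) → List Bool,
    2 / 3 ≤ pr (p.eval (padE c (pairBits x w)).length) fun r =>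
      Accepts (outV M (O A)) P (p.eval (padE c (pairBits x w)).length) (padE c (pairBits x w)) r

/-- all provers convince the verifier with a small probability only -/
def NoI (A : Oracle) (w x : List Bool) : Prop :=
  ∀ P : List (List Bool) → List Bool,
    (pr (p.eval (padE c (pairBits x w)).length) fun r =>
      Accepts (outV M (O A)) P (p.eval (padE c (pairBits x w)).length)
        (padE c (pairBits x w)) r) ≤ 1 / 3

/-- the deterministic machine accepts `x` with advice `w` -/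
def AccD (A : Oracle) (w x : List Bool) : Prop := outV M (O A) (pairBits (padE c x) w) = [true]

/-- the probability that the randomized machine accepts `x` with advice `w` -/
noncomputable def prB (A : Oracle) (w x : List Bool) : ℝ :=
  pr (p.eval (padE c x).length) fun r => outV M (O A) (pairBits (padE c x) (pairBits w r)) = [true]

end

section

variable {O : Oracle → Oracle} {M : Alg} {p : Polynomial ℕ} {c : ℕ} {pre : List Bool}

theorem cert_accN (hO : LateG pre O) (M : Alg) (p : Polynomial ℕ) (c : ℕ)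
    {W : ℕ → Finset (List Bool)} (hW : ∀ n, ∀ w ∈ W n, w.length ≤ n) :
    ∀ᶠ n : ℕ in atTop, ∃ r : ℕ, HasCert n r (W n) (AccN O M p c)
      (fun A w x => ¬ AccN O M p c A w x) ∧ r ≤ 2 ^ n ^ 2 := by
  filter_upwards [crt hO M (2 * p.comp (plP c) + 1 + plP c),
    big (M.p.comp (2 * p.comp (plP c) + 1 + plP c))] with n h1 h2
  refine ⟨_, ?_, h2⟩
  rintro A w x hw hx ⟨u, hu, h3⟩
  have h4 := length_pad_le (c := c) hx (hW n w hw)
  obtain ⟨Q, h5, h6⟩ := h1 A (pairBits u (padE c (pairBits x w))) (by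
    rw [Pool.Agent.H620R2.Gauge.length_pairBits]
    simp only [Polynomial.eval_add, Polynomial.eval_mul, Polynomial.eval_comp,
      Polynomial.eval_ofNat, Polynomial.eval_one]
    have := eval_mono p h4
    omega)
  refine ⟨Q, h5, fun A' hA' hn => hn ⟨u, hu, ?_⟩⟩
  rw [h6 A' hA'.short hA'.on, h3]

theorem fin_accN (hO : LateG pre O) {W : ℕ → Finset (List Bool)}
    (hW : ∀ n, ∀ w ∈ W n, w.length ≤ n) : Fin' W (AccN O M p c) := by
  intro n
  obtain ⟨N, hN⟩ := (far hO M ((2 * p.comp (plP c) + 1 + plP c).eval (2 ^ (n + 1)))).exists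
  have key : ∀ A A' : Oracle, (∀ v : List Bool, v.length < N → A v = A' v) →
      ∀ w ∈ W n, ∀ x : List Bool, x.length = n → AccN O M p c A w x → AccN O M p c A' w x := by
    rintro A A' hA w hw x hx ⟨u, hu, h3⟩
    have h4 := length_pad_le (c := c) hx (hW n w hw)
    refine ⟨u, hu, ?_⟩
    rw [hN A A' _ ?_ hA, h3]
    rw [Pool.Agent.H620R2.Gauge.length_pairBits]
    simp only [Polynomial.eval_add, Polynomial.eval_mul, Polynomial.eval_comp,
      Polynomial.eval_ofNat, Polynomial.eval_one]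
    have := eval_mono p h4
    omega
  exact ⟨N, fun A A' hA w hw x hx => ⟨key A A' hA w hw x hx,
    key A' A (fun v hv => (hA v hv).symm) w hw x hx⟩⟩

/-- a polynomial bound for the lengths of the inputs of the verifier -/
noncomputable def ilP (p : Polynomial ℕ) (c : ℕ) : Polynomial ℕ :=
  2 * plP c + 1 + (2 * p.comp (plP c) + 1 + p.comp (plP c) * (2 * p.comp (plP c) + 1))

theorem il_le {a n : ℕ} (h : a ≤ (plP c).eval (2 ^ (n + 1))) :
    il a (p.eval a) ≤ (ilP p c).eval (2 ^ (n + 1)) := by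
  unfold il ilP
  simp only [Polynomial.eval_add, Polynomial.eval_mul, Polynomial.eval_comp,
    Polynomial.eval_ofNat, Polynomial.eval_one]
  have h1 := eval_mono p h
  gcongr

open Classical in
/-- the general soft certificate: most random strings have a certificate which is not hit -/
theorem soft {n ℓ r₀ : ℕ} {A : Oracle} (Q : (Fin ℓ → Bool) → Finset (List Bool))
    (hQ : ∀ ω, (Q ω).card ≤ r₀) :
    ∃ H : Finset (List Bool), H.card ≤ 2 ^ (n + 3) * r₀ ∧ ∀ A' : Oracle, Near n H A A' →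
      ∀ E E' : List Bool → Prop, (∀ ω : Fin ℓ → Bool, (∀ v ∈ Q ω, A' v = A v) →
        (E (List.ofFn ω) ↔ E' (List.ofFn ω))) → pr ℓ E ≤ pr ℓ E' + 1 / 8 := by
  obtain ⟨H, h1, h2⟩ := heavy (n + 3) Q hQ
  refine ⟨H, h1, ?_⟩
  rintro A' ⟨D, h3, h4, h5, h6⟩ E E' hE
  have h7 := h2 D h5
  have h8 : (((Finset.univ.filter fun ω : Fin ℓ → Bool => ∃ v ∈ D, v ∈ Q ω).card : ℕ) : ℝ) / 2 ^ ℓ
      ≤ 1 / 8 := hit_small h7 h3
  have h9 : pr ℓ E ≤ pr ℓ E' +
      (((Finset.univ.filter fun ω : Fin ℓ → Bool => ∃ v ∈ D, v ∈ Q ω).card : ℕ) : ℝ) / 2 ^ ℓ := by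
    refine pr_le (F := fun ω => ∃ v ∈ D, v ∈ Q ω) fun ω hω => ?_
    by_cases hF : ∃ v ∈ D, v ∈ Q ω
    · exact Or.inr hF
    · left
      exact (hE ω fun v hv => h6 v fun hvD => hF ⟨v, hvD, hv⟩).1 hω
  exact h9.trans (by gcongr)

theorem cert_I (hO : LateG pre O) (M : Alg) (p : Polynomial ℕ) (c : ℕ)
    {W : ℕ → Finset (List Bool)} (hW : ∀ n, ∀ w ∈ W n, w.length ≤ n) :
    ∀ᶠ n : ℕ in atTop, ∃ r : ℕ, HasCert n r (W n) (YesI O M p c) (NoI O M p c) ∧
      r ≤ 2 ^ n ^ 2 := by
  classical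
  filter_upwards [crt hO M (ilP p c),
    big (4 * Polynomial.X * ((p.comp (plP c) + 1) * M.p.comp (ilP p c)))] with n h1 h2
  refine ⟨_, ?_, h2⟩
  rintro A w x hw hx ⟨P, h3⟩
  have h4 := length_pad_le (c := c) hx (hW n w hw)
  set z := padE c (pairBits x w) with hz
  set ℓ := p.eval z.length with hℓ
  have h5 : ∀ (r : List Bool), r.length = ℓ → ∀ i ≤ ℓ,
      (pairBits z (pairBits r (talk (outV M (O A)) P ℓ z r i).2)).length ≤
        (ilP p c).eval (2 ^ (n + 1)) := fun r hr i hi =>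
    (input_length _ P rfl hr hi).trans (il_le h4)
  have h6 : ∀ (r : List Bool) (i : ℕ), ∃ Q : Finset (List Bool), r.length = ℓ → i ≤ ℓ →
      Q.card ≤ (M.p.comp (ilP p c)).eval (2 ^ (n + 1)) ∧
      Crt O M n A (pairBits z (pairBits r (talk (outV M (O A)) P ℓ z r i).2)) Q := by
    intro r i
    by_cases h7 : r.length = ℓ ∧ i ≤ ℓ
    · obtain ⟨Q, h8, h9⟩ := h1 A _ (h5 r h7.1 i h7.2)
      exact ⟨Q, fun _ _ => ⟨h8, h9⟩⟩
    · exact ⟨∅, fun h8 h9 => absurd ⟨h8, h9⟩ h7⟩
  choose Q hQ using h6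
  obtain ⟨H, h7, h8⟩ := soft (n := n) (ℓ := ℓ) (A := A)
    (r₀ := (ℓ + 1) * (M.p.comp (ilP p c)).eval (2 ^ (n + 1)))
    (fun ω => (Finset.range (ℓ + 1)).biUnion fun i => Q (List.ofFn ω) i) (fun ω => by
      refine (Finset.card_biUnion_le_card_mul _ _ _ fun i hi => ?_).trans_eq (by
        rw [Finset.card_range])
      rw [Finset.mem_range] at hi
      exact (hQ _ i List.length_ofFn (by omega)).1)
  refine ⟨H, h7.trans ?_, fun A' hA' hn => ?_⟩
  · simp only [Polynomial.eval_add, Polynomial.eval_mul, Polynomial.eval_comp,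
      Polynomial.eval_ofNat, Polynomial.eval_one, Polynomial.eval_X]
    have e1 : ℓ ≤ p.eval ((plP c).eval (2 ^ (n + 1))) := eval_mono p h4
    have e2 : 2 ^ (n + 3) = 4 * 2 ^ (n + 1) := by ring
    rw [e2]
    gcongr
  · have h9 := h8 A' hA' (fun r => Accepts (outV M (O A)) P ℓ z r)
      (fun r => Accepts (outV M (O A')) P ℓ z r) (fun ω hω => by
        refine (accepts_congr P z _ fun i hi => ?_).symm
        exact (hQ (List.ofFn ω) i List.length_ofFn (by omega)).2 A' hA'.short fun v hv =>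
          hω v (Finset.mem_biUnion.2 ⟨i, Finset.mem_range.2 hi, hv⟩))
    have h10 := hn P
    rw [← hz, ← hℓ] at h10
    linarith

theorem fin_YesI (hO : LateG pre O) {W : ℕ → Finset (List Bool)}
    (hW : ∀ n, ∀ w ∈ W n, w.length ≤ n) (n : ℕ) : ∃ N : ℕ, ∀ A A' : Oracle,
      (∀ v : List Bool, v.length < N → A v = A' v) → ∀ w ∈ W n, ∀ x : List Bool, x.length = n →
      ∀ P : List (List Bool) → List Bool,
      (pr (p.eval (padE c (pairBits x w)).length) fun r =>
        Accepts (outV M (O A)) P (p.eval (padE c (pairBits x w)).length)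
          (padE c (pairBits x w)) r) =
      pr (p.eval (padE c (pairBits x w)).length) fun r =>
        Accepts (outV M (O A')) P (p.eval (padE c (pairBits x w)).length)
          (padE c (pairBits x w)) r := by
  obtain ⟨N, hN⟩ := (far hO M ((ilP p c).eval (2 ^ (n + 1)))).exists
  refine ⟨N, fun A A' hA w hw x hx P => pr_congr fun r hr => ?_⟩
  have h4 := length_pad_le (c := c) hx (hW n w hw)
  refine (accepts_congr P _ _ fun i hi => ?_).symm
  exact hN A A' _ ((input_length _ P rfl hr (by omega)).trans (il_le h4)) hA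

theorem fin_yesI (hO : LateG pre O) {W : ℕ → Finset (List Bool)}
    (hW : ∀ n, ∀ w ∈ W n, w.length ≤ n) : Fin' W (YesI O M p c) := by
  intro n
  obtain ⟨N, hN⟩ := fin_YesI (M := M) (p := p) (c := c) hO hW n
  refine ⟨N, fun A A' hA w hw x hx => exists_congr fun P => ?_⟩
  rw [hN A A' hA w hw x hx P]

theorem fin_noI (hO : LateG pre O) {W : ℕ → Finset (List Bool)}
    (hW : ∀ n, ∀ w ∈ W n, w.length ≤ n) : Fin' W (NoI O M p c) := by
  intro n
  obtain ⟨N, hN⟩ := fin_YesI (M := M) (p := p) (c := c) hO hW n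
  refine ⟨N, fun A A' hA w hw x hx => forall_congr' fun P => ?_⟩
  rw [hN A A' hA w hw x hx P]

/-- a polynomial bound for the lengths of the inputs of the randomized machine -/
noncomputable def ibP (p : Polynomial ℕ) (c : ℕ) : Polynomial ℕ :=
  2 * plP c + 1 + (2 * Polynomial.X + 1 + p.comp (plP c))

theorem cert_B (hO : LateG pre O) (M : Alg) (p : Polynomial ℕ) (c : ℕ)
    {W : ℕ → Finset (List Bool)} (hW : ∀ n, ∀ w ∈ W n, w.length ≤ 2 ^ n) :
    ∀ᶠ n : ℕ in atTop, ∃ r : ℕ, HasCert2 n r (W n) (fun A w x => 2 / 3 ≤ prB O M p c A w x)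
      (fun A w x => prB O M p c A w x ≤ 1 / 3) ∧ r ≤ 2 ^ n ^ 2 := by
  classical
  filter_upwards [crt hO M (ibP p c),
    big (4 * Polynomial.X * M.p.comp (ibP p c))] with n h1 h2
  refine ⟨_, ?_, h2⟩
  intro A w x hw hx
  have h4 := length_pad_le' (c := c) hx
  have h4' : w.length ≤ 2 ^ (n + 1) :=
    (hW n w hw).trans (Nat.pow_le_pow_right (by norm_num) (by omega))
  unfold prB
  set z := padE c x with hz
  set ℓ := p.eval z.length with hℓ
  have h5 : ∀ (r : List Bool), r.length = ℓ →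
      (pairBits z (pairBits w r)).length ≤ (ibP p c).eval (2 ^ (n + 1)) := by
    intro r hr
    rw [Pool.Agent.H620R2.Gauge.length_pairBits, Pool.Agent.H620R2.Gauge.length_pairBits, hr]
    unfold ibP
    simp only [Polynomial.eval_add, Polynomial.eval_mul, Polynomial.eval_comp,
      Polynomial.eval_ofNat, Polynomial.eval_one, Polynomial.eval_X]
    have := eval_mono p h4
    omega
  have h6 : ∀ (r : List Bool), ∃ Q : Finset (List Bool), r.length = ℓ →
      Q.card ≤ (M.p.comp (ibP p c)).eval (2 ^ (n + 1)) ∧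
      Crt O M n A (pairBits z (pairBits w r)) Q := by
    intro r
    by_cases h7 : r.length = ℓ
    · obtain ⟨Q, h8, h9⟩ := h1 A _ (h5 r h7)
      exact ⟨Q, fun _ => ⟨h8, h9⟩⟩
    · exact ⟨∅, fun h8 => absurd h8 h7⟩
  choose Q hQ using h6
  obtain ⟨H, h7, h8⟩ := soft (n := n) (ℓ := ℓ) (A := A)
    (r₀ := (M.p.comp (ibP p c)).eval (2 ^ (n + 1)))
    (fun ω => Q (List.ofFn ω)) (fun ω => (hQ _ List.length_ofFn).1)
  have h9 : ∀ A' : Oracle, Near n H A A' → ∀ ω : Fin ℓ → Bool, (∀ v ∈ Q (List.ofFn ω),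
      A' v = A v) → (outV M (O A) (pairBits z (pairBits w (List.ofFn ω))) = [true] ↔
        outV M (O A') (pairBits z (pairBits w (List.ofFn ω))) = [true]) := by
    intro A' hA' ω hω
    rw [(hQ (List.ofFn ω) List.length_ofFn).2 A' hA'.short hω]
  refine ⟨H, h7.trans ?_, ?_⟩
  · simp only [Polynomial.eval_mul, Polynomial.eval_ofNat, Polynomial.eval_X]
    have e2 : 2 ^ (n + 3) = 4 * 2 ^ (n + 1) := by ring
    rw [e2]
  · by_cases hhalf : 1 / 2 ≤ pr ℓ fun r => outV M (O A) (pairBits z (pairBits w r)) = [true]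
    · right
      intro A' hA' hcon
      have h10 := h8 A' hA' (fun r => outV M (O A) (pairBits z (pairBits w r)) = [true])
        (fun r => outV M (O A') (pairBits z (pairBits w r)) = [true]) (h9 A' hA')
      linarith
    · left
      intro A' hA' hcon
      have h10 := h8 A' hA' (fun r => outV M (O A') (pairBits z (pairBits w r)) = [true])
        (fun r => outV M (O A) (pairBits z (pairBits w r)) = [true])
        (fun ω hω => (h9 A' hA' ω hω).symm)
      linarith

theorem fin_B (hO : LateG pre O) {W : ℕ → Finset (List Bool)}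
    (hW : ∀ n, ∀ w ∈ W n, w.length ≤ 2 ^ n) (n : ℕ) : ∃ N : ℕ, ∀ A A' : Oracle,
      (∀ v : List Bool, v.length < N → A v = A' v) → ∀ w ∈ W n, ∀ x : List Bool, x.length = n →
      prB O M p c A w x = prB O M p c A' w x := by
  obtain ⟨N, hN⟩ := (far hO M ((ibP p c).eval (2 ^ (n + 1)))).exists
  refine ⟨N, fun A A' hA w hw x hx => pr_congr fun r hr => ?_⟩
  rw [hN A A' _ ?_ hA]
  have h4 := length_pad_le' (c := c) hx
  have h4' : w.length ≤ 2 ^ (n + 1) :=
    (hW n w hw).trans (Nat.pow_le_pow_right (by norm_num) (by omega))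
  rw [Pool.Agent.H620R2.Gauge.length_pairBits, Pool.Agent.H620R2.Gauge.length_pairBits, hr]
  unfold ibP
  simp only [Polynomial.eval_add, Polynomial.eval_mul, Polynomial.eval_comp,
    Polynomial.eval_ofNat, Polynomial.eval_one, Polynomial.eval_X]
  have := eval_mono p h4
  omega

theorem fin_B1 (hO : LateG pre O) {W : ℕ → Finset (List Bool)}
    (hW : ∀ n, ∀ w ∈ W n, w.length ≤ 2 ^ n) :
    Fin' W (fun A w x => 2 / 3 ≤ prB O M p c A w x) := by
  intro n
  obtain ⟨N, hN⟩ := fin_B (M := M) (p := p) (c := c) hO hW n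
  refine ⟨N, fun A A' hA w hw x hx => ?_⟩
  beta_reduce
  rw [hN A A' hA w hw x hx]

theorem fin_B2 (hO : LateG pre O) {W : ℕ → Finset (List Bool)}
    (hW : ∀ n, ∀ w ∈ W n, w.length ≤ 2 ^ n) :
    Fin' W (fun A w x => prB O M p c A w x ≤ 1 / 3) := by
  intro n
  obtain ⟨N, hN⟩ := fin_B (M := M) (p := p) (c := c) hO hW n
  refine ⟨N, fun A A' hA w hw x hx => ?_⟩
  beta_reduce
  rw [hN A A' hA w hw x hx]

theorem cert_D (hO : LateG pre O) (M : Alg) (c : ℕ)
    {W : ℕ → Finset (List Bool)} (hW : ∀ n, ∀ w ∈ W n, w.length ≤ 2 ^ n) :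
    ∀ᶠ n : ℕ in atTop, ∃ r : ℕ, HasCert2 n r (W n) (AccD O M c)
      (fun A w x => ¬ AccD O M c A w x) ∧ r ≤ 2 ^ n ^ 2 := by
  filter_upwards [crt hO M (2 * plP c + 1 + Polynomial.X),
    big (M.p.comp (2 * plP c + 1 + Polynomial.X))] with n h1 h2
  refine ⟨_, ?_, h2⟩
  intro A w x hw hx
  have h4 := length_pad_le' (c := c) hx
  have h4' : w.length ≤ 2 ^ (n + 1) :=
    (hW n w hw).trans (Nat.pow_le_pow_right (by norm_num) (by omega))
  obtain ⟨Q, h5, h6⟩ := h1 A (pairBits (padE c x) w) (by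
    rw [Pool.Agent.H620R2.Gauge.length_pairBits]
    simp only [Polynomial.eval_add, Polynomial.eval_mul, Polynomial.eval_ofNat,
      Polynomial.eval_one, Polynomial.eval_X]
    omega)
  refine ⟨Q, h5, ?_⟩
  by_cases h7 : AccD O M c A w x
  · right
    intro A' hA' hn
    apply hn
    unfold AccD at h7 ⊢
    rw [h6 A' hA'.short hA'.on, h7]
  · left
    intro A' hA' hn
    apply h7
    unfold AccD at hn ⊢
    rw [← h6 A' hA'.short hA'.on, hn]

theorem fin_D (hO : LateG pre O) {W : ℕ → Finset (List Bool)}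
    (hW : ∀ n, ∀ w ∈ W n, w.length ≤ 2 ^ n) : Fin' W (AccD O M c) := by
  intro n
  obtain ⟨N, hN⟩ := (far hO M ((2 * plP c + 1 + Polynomial.X).eval (2 ^ (n + 1)))).exists
  refine ⟨N, fun A A' hA w hw x hx => ?_⟩
  unfold AccD
  rw [hN A A' _ ?_ hA]
  have h4 := length_pad_le' (c := c) hx
  have h4' : w.length ≤ 2 ^ (n + 1) :=
    (hW n w hw).trans (Nat.pow_le_pow_right (by norm_num) (by omega))
  rw [Pool.Agent.H620R2.Gauge.length_pairBits]
  simp only [Polynomial.eval_add, Polynomial.eval_mul, Polynomial.eval_ofNat,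
    Polynomial.eval_one, Polynomial.eval_X]
  omega

theorem Fin'.not {W : ℕ → Finset (List Bool)} {Y : Oracle → List Bool → List Bool → Prop}
    (h : Fin' W Y) : Fin' W (fun A w x => ¬ Y A w x) := by
  intro n
  obtain ⟨N, hN⟩ := h n
  exact ⟨N, fun A A' hA w hw x hx => not_congr (hN A A' hA w hw x hx)⟩

end

end Pool.Agent.J6H56.GA
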