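import Pool.Agent.J6H56.GA.Secret

/-!
# The requirements for oracles with unique witnesses
-/

set_option autoImplicit false

namespace Pool.Agent.J6H56.GA

open Pool.Agent.NPC Pool.Agent.H620R2.Gauge Filter
open Pool.Agent.J6H7.RO (outV)
open Pool.Agent.J6H49.EE (padE)
open Pool.Agent.J6H49.AM (pr)

/-- the outputs have small certificates, consisting of strings of polynomial length -/
theorem certU {pre : List Bool} {O : Oracle → Oracle} (hO : LateG pre O) (M : Alg)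
    (P : Polynomial ℕ) : ∃ R : Polynomial ℕ, ∀ᶠ N : ℕ in atTop, ∀ (A : Oracle) (y : List Bool),
      y.length ≤ P.eval N → ∃ Q : Finset (List Bool), Q.card ≤ M.p.eval (P.eval N) ∧
        (∀ v ∈ Q, v.length ≤ R.eval N) ∧
        ∀ A' : Oracle, (∀ v : List Bool, v.length < N → A v = A' v) → (∀ v ∈ Q, A' v = A v) →
          outV M (O A') y = outV M (O A) y := by
  classical
  obtain ⟨qb, hqb⟩ := Alg.out_local M
  obtain ⟨c, hc⟩ := pow_bound (qb.comp P)
  refine ⟨qb.comp P, ?_⟩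
  filter_upwards [hc, hO.slow c] with N h1 h2 A y hy
  obtain ⟨Q, hQ1, hQ2, hQ3⟩ := hqb (O A) y
  refine ⟨Q.image (List.drop pre.length), Finset.card_image_le.trans (hQ1.trans (eval_mono _ hy)),
    fun v hv => ?_, fun A' hA' hQA => ?_⟩
  · obtain ⟨q, hq, rfl⟩ := Finset.mem_image.1 hv
    rw [List.length_drop, Polynomial.eval_comp]
    exact (Nat.sub_le _ _).trans ((hQ2 q hq).trans (eval_mono _ hy))
  have h3 : M.out (O A') y = M.out (O A) y := by
    refine hQ3 _ fun q hq => ?_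
    by_cases hpre : ∃ x, q = pre ++ x
    · obtain ⟨x, rfl⟩ := hpre
      rw [hO.direct, hO.direct]
      refine hQA x ?_
      rw [Finset.mem_image]
      exact ⟨_, hq, by simp⟩
    · push Not at hpre
      refine (h2 A A' hA' q ?_ hpre).symm
      refine (hQ2 q hq).trans (le_trans ?_ h1)
      rw [Polynomial.eval_comp]
      exact eval_mono _ hy
  unfold outV
  rw [h3]

/-- the certificates, for the length `2 ^ (n + 1)` -/
theorem crtU {pre : List Bool} {O : Oracle → Oracle} (hO : LateG pre O) (M : Alg)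
    (P : Polynomial ℕ) : ∃ K : ℕ, ∀ᶠ n : ℕ in atTop, ∀ (A : Oracle) (y : List Bool),
      y.length ≤ P.eval (2 ^ (n + 1)) → ∃ Q : Finset (List Bool),
        Q.card ≤ (M.p.comp P).eval (2 ^ (n + 1)) ∧
        (∀ v ∈ Q, v.length ≤ 2 ^ (K * (n + 1) + 1)) ∧ Crt O M n A y Q := by
  obtain ⟨R, hR⟩ := certU hO M P
  obtain ⟨K, hK⟩ := pow_bound R
  refine ⟨K, ?_⟩
  filter_upwards [tendsto_two_pow.eventually hR, tendsto_two_pow.eventually hK] with n hn hk A y hy
  obtain ⟨Q, h1, h2, h3⟩ := hn A y hy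
  refine ⟨Q, by rwa [Polynomial.eval_comp], fun v hv => (h2 v hv).trans (hk.trans ?_), h3⟩
  rw [← pow_mul]
  apply Nat.pow_le_pow_right (by norm_num)
  rw [mul_comm]
  omega

open Classical in
/-- the general soft certificate: most random strings have a certificate which is not hit -/
theorem softU {d ℓ r₀ : ℕ} (Q : (Fin ℓ → Bool) → Finset (List Bool))
    (hQ : ∀ ω, (Q ω).card ≤ r₀) :
    ∃ H : Finset (List Bool), H.card ≤ 2 ^ (d + 3) * r₀ ∧ ∀ D : Finset (List Bool),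
      D.card ≤ 2 ^ d → (∀ v ∈ D, v ∉ H) →
      ∀ E E' : List Bool → Prop, (∀ ω : Fin ℓ → Bool, (∀ v ∈ Q ω, v ∉ D) →
        (E (List.ofFn ω) ↔ E' (List.ofFn ω))) → pr ℓ E ≤ pr ℓ E' + 1 / 8 := by
  obtain ⟨H, h1, h2⟩ := heavy (d + 3) Q hQ
  refine ⟨H, h1, ?_⟩
  intro D h3 h5 E E' hE
  have h7 := h2 D h5
  have h8 : (((Finset.univ.filter fun ω : Fin ℓ → Bool => ∃ v ∈ D, v ∈ Q ω).card : ℕ) : ℝ) / 2 ^ ℓ
      ≤ 1 / 8 := hit_small h7 h3
  have h9 : pr ℓ E ≤ pr ℓ E' +
      (((Finset.univ.filter fun ω : Fin ℓ → Bool => ∃ v ∈ D, v ∈ Q ω).card : ℕ) : ℝ) / 2 ^ ℓ := by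
    refine pr_le (F := fun ω => ∃ v ∈ D, v ∈ Q ω) fun ω hω => ?_
    by_cases hF : ∃ v ∈ D, v ∈ Q ω
    · exact Or.inr hF
    · left
      exact (hE ω fun v hv hvD => hF ⟨v, hvD, hv⟩).1 hω
  exact h9.trans (by gcongr)

section

variable {O : Oracle → Oracle} {M : Alg} {p : Polynomial ℕ} {c : ℕ} {pre : List Bool}

theorem cert_BU (hO : LateG pre O) (M : Alg) (p : Polynomial ℕ) (c : ℕ)
    {W : ℕ → Finset (List Bool)} (hW : ∀ n, ∀ w ∈ W n, w.length ≤ 2 ^ n) :
    ∀ᶠ n : ℕ in atTop, ∃ m r : ℕ, HasCertU n m r (W n) (fun A w x => 2 / 3 ≤ prB O M p c A w x)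
      (fun A w x => prB O M p c A w x ≤ 1 / 3) ∧ r ≤ 2 ^ n ^ 2 := by
  classical
  obtain ⟨K, hK⟩ := crtU hO M (ibP p c)
  filter_upwards [hK, big (16 * Polynomial.X ^ K * M.p.comp (ibP p c))] with n h1 h2
  refine ⟨K * (n + 1), _, ?_, h2⟩
  intro A w x hw hx
  have h4 := length_pad_le' (c := c) hx
  have h4' : w.length ≤ 2 ^ (n + 1) :=
    (hW n w hw).trans (Nat.pow_le_pow_right (by norm_num) (by omega))
  unfold prB
  set z := padE c x with hz
  set ℓ := p.eval z.length with hℓ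
  have h5 : ∀ (r : List Bool), r.length = ℓ →
      (pairBits z (pairBits w r)).length ≤ (ibP p c).eval (2 ^ (n + 1)) := by
    intro r hr
    rw [Pool.Agent.H620R2.Gauge.length_pairBits, Pool.Agent.H620R2.Gauge.length_pairBits, hr]
    unfold ibP
    simp only [Polynomial.eval_add, Polynomial.eval_mul, Polynomial.eval_comp,
      Polynomial.eval_ofNat, Polynomial.eval_one, Polynomial.eval_X]
    have := eval_mono p h4
    omega
  have h6 : ∀ (r : List Bool), ∃ Q : Finset (List Bool), r.length = ℓ →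
      Q.card ≤ (M.p.comp (ibP p c)).eval (2 ^ (n + 1)) ∧
      (∀ v ∈ Q, v.length ≤ 2 ^ (K * (n + 1) + 1)) ∧
      Crt O M n A (pairBits z (pairBits w r)) Q := by
    intro r
    by_cases h7 : r.length = ℓ
    · obtain ⟨Q, h8⟩ := h1 A _ (h5 r h7)
      exact ⟨Q, fun _ => h8⟩
    · exact ⟨∅, fun h8 => absurd h8 h7⟩
  choose Q hQ using h6
  obtain ⟨H, h7, h8⟩ := softU (d := K * (n + 1) + 1) (ℓ := ℓ)
    (r₀ := (M.p.comp (ibP p c)).eval (2 ^ (n + 1)))
    (fun ω => Q (List.ofFn ω)) (fun ω => (hQ _ List.length_ofFn).1)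
  have h9 : ∀ (A' : Oracle) (D : Finset (List Bool)),
      (∀ v : List Bool, v.length < 2 ^ (n + 1) → A v = A' v) →
      (∀ v : List Bool, v ∉ D → v.length ≤ 2 ^ (K * (n + 1) + 1) → A' v = A v) →
      ∀ ω : Fin ℓ → Bool, (∀ v ∈ Q (List.ofFn ω), v ∉ D) →
      (outV M (O A) (pairBits z (pairBits w (List.ofFn ω))) = [true] ↔
        outV M (O A') (pairBits z (pairBits w (List.ofFn ω))) = [true]) := by
    intro A' D hA' hD ω hω
    obtain ⟨_, h10, h11⟩ := hQ (List.ofFn ω) List.length_ofFn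
    rw [h11 A' hA' fun v hv => hD v (hω v hv) (h10 v hv)]
  refine ⟨H, h7.trans ?_, ?_⟩
  · simp only [Polynomial.eval_mul, Polynomial.eval_ofNat, Polynomial.eval_X, Polynomial.eval_pow]
    have e2 : 2 ^ (K * (n + 1) + 1 + 3) = 16 * (2 ^ (n + 1)) ^ K := by
      rw [← pow_mul, mul_comm (n + 1) K, pow_add, pow_add]
      ring
    rw [e2]
  · by_cases hhalf : 1 / 2 ≤ pr ℓ fun r => outV M (O A) (pairBits z (pairBits w r)) = [true]
    · right
      rintro A' ⟨D, hD1, hD2, hD3, hD4⟩ hcon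
      have h10 := h8 D hD1 hD2 (fun r => outV M (O A) (pairBits z (pairBits w r)) = [true])
        (fun r => outV M (O A') (pairBits z (pairBits w r)) = [true]) (h9 A' D hD3 hD4)
      linarith
    · left
      rintro A' ⟨D, hD1, hD2, hD3, hD4⟩ hcon
      have h10 := h8 D hD1 hD2 (fun r => outV M (O A') (pairBits z (pairBits w r)) = [true])
        (fun r => outV M (O A) (pairBits z (pairBits w r)) = [true])
        (fun ω hω => (h9 A' D hD3 hD4 ω hω).symm)
      linarith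

theorem cert_DU (hO : LateG pre O) (M : Alg) (c : ℕ)
    {W : ℕ → Finset (List Bool)} (hW : ∀ n, ∀ w ∈ W n, w.length ≤ 2 ^ n) :
    ∀ᶠ n : ℕ in atTop, ∃ m r : ℕ, HasCertU n m r (W n) (AccD O M c)
      (fun A w x => ¬ AccD O M c A w x) ∧ r ≤ 2 ^ n ^ 2 := by
  obtain ⟨K, hK⟩ := crtU hO M (2 * plP c + 1 + Polynomial.X)
  filter_upwards [hK, big (M.p.comp (2 * plP c + 1 + Polynomial.X))] with n h1 h2
  refine ⟨K * (n + 1), _, ?_, h2⟩
  intro A w x hw hx
  have h4 := length_pad_le' (c := c) hx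
  have h4' : w.length ≤ 2 ^ (n + 1) :=
    (hW n w hw).trans (Nat.pow_le_pow_right (by norm_num) (by omega))
  obtain ⟨Q, h5, h5', h6⟩ := h1 A (pairBits (padE c x) w) (by
    rw [Pool.Agent.H620R2.Gauge.length_pairBits]
    simp only [Polynomial.eval_add, Polynomial.eval_mul, Polynomial.eval_ofNat,
      Polynomial.eval_one, Polynomial.eval_X]
    omega)
  have h8 : ∀ A' : Oracle, NearU n (K * (n + 1)) Q A A' →
      outV M (O A') (pairBits (padE c x) w) = outV M (O A) (pairBits (padE c x) w) := by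
    rintro A' ⟨D, _, hD2, hD3, hD4⟩
    exact h6 A' hD3 fun v hv => hD4 v (fun hvD => hD2 v hvD hv) (h5' v hv)
  refine ⟨Q, h5, ?_⟩
  by_cases h7 : AccD O M c A w x
  · right
    intro A' hA' hn
    apply hn
    unfold AccD at h7 ⊢
    rw [h8 A' hA', h7]
  · left
    intro A' hA' hn
    apply h7
    unfold AccD at hn ⊢
    rw [← h8 A' hA', hn]

theorem res_DU (hO : LateG pre O) {W : ℕ → Finset (List Bool)} {t : ℕ → ℕ} (ht : ∀ n, t n ≤ 2 ^ n)
    (hW : ∀ n, (W n).card * ∑ i ∈ Finset.Icc (t n) (2 ^ n), (2 ^ n).choose i < 2 ^ 2 ^ n)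
    (hW2 : ∀ n, ∀ w ∈ W n, w.length ≤ 2 ^ n) :
    ∀ᶠ s in residual Secret, ∀ (V : List Bool → List Bool) (c : ℕ), IsFP (O (ora s)) V →
      ∃ᶠ n in atTop, ∀ w ∈ W n, {x : List Bool | x.length = n ∧
        (V (pairBits (padE c x) w) = [true] ↔ x ∈ LS s)}.ncard < t n := by
  have h1 : ∀ᶠ s in residual Secret, ∀ (M : Alg) (c : ℕ),
      ∃ᶠ n in atTop, ∀ w ∈ W n, {x : List Bool | x.length = n ∧
        ((x ∈ LS s → AccD O M c (ora s) w x) ∧
          (x ∉ LS s → ¬ AccD O M c (ora s) w x))}.ncard < t n := by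
    rw [eventually_countable_forall]
    intro M
    rw [eventually_countable_forall]
    intro c
    exact gen_tablesU ht hW (cert_DU hO M c hW2) (fin_D hO hW2) (fin_D hO hW2).not
  filter_upwards [h1] with s hA V c hV
  obtain ⟨M, hM⟩ := hV
  refine (hA M c).mono fun n hn w hw => ?_
  refine lt_of_eq_of_lt ?_ (hn w hw)
  congr 1
  ext x
  refine and_congr_right fun _ => ?_
  unfold AccD
  rw [outV_of hM]
  constructor
  · exact fun hcon => ⟨hcon.2, fun h h3 => h (hcon.1 h3)⟩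
  · exact fun h => ⟨fun h3 => by_contra fun h4 => h.2 h4 h3, h.1⟩

theorem res_BU (hO : LateG pre O) {W : ℕ → Finset (List Bool)} {t : ℕ → ℕ} (ht : ∀ n, t n ≤ 2 ^ n)
    (hW : ∀ n, (W n).card * ∑ i ∈ Finset.Icc (t n) (2 ^ n), (2 ^ n).choose i < 2 ^ 2 ^ n)
    (hW2 : ∀ n, ∀ w ∈ W n, w.length ≤ 2 ^ n) :
    ∀ᶠ s in residual Secret, ∀ (V : List Bool → List Bool) (p : Polynomial ℕ) (c : ℕ),
      IsFP (O (ora s)) V → ∃ᶠ n in atTop, ∀ w ∈ W n, {x : List Bool | x.length = n ∧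
        ((x ∈ LS s → 2 / 3 ≤ pr (p.eval (padE c x).length) fun r =>
            V (pairBits (padE c x) (pairBits w r)) = [true]) ∧
          (x ∉ LS s → (pr (p.eval (padE c x).length) fun r =>
            V (pairBits (padE c x) (pairBits w r)) = [true]) ≤ 1 / 3))}.ncard < t n := by
  have h1 : ∀ᶠ s in residual Secret, ∀ (M : Alg) (p : Polynomial ℕ) (c : ℕ),
      ∃ᶠ n in atTop, ∀ w ∈ W n, {x : List Bool | x.length = n ∧
        ((x ∈ LS s → 2 / 3 ≤ prB O M p c (ora s) w x) ∧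
          (x ∉ LS s → prB O M p c (ora s) w x ≤ 1 / 3))}.ncard < t n := by
    have : Countable (Polynomial ℕ) := CC.poly_countable
    rw [eventually_countable_forall]
    intro M
    rw [eventually_countable_forall]
    intro p
    rw [eventually_countable_forall]
    intro c
    exact gen_tablesU ht hW (cert_BU hO M p c hW2) (fin_B1 hO hW2) (fin_B2 hO hW2)
  filter_upwards [h1] with s hA V p c hV
  obtain ⟨M, hM⟩ := hV
  refine (hA M p c).mono fun n hn w hw => ?_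
  refine lt_of_eq_of_lt ?_ (hn w hw)
  congr 1
  ext x
  refine and_congr_right fun _ => ?_
  unfold prB
  rw [outV_of hM]

end

end Pool.Agent.J6H56.GA
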