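import Pool.Agent.J6H56.GA.Main

/-!
# Oracles with a unique witness for every string
-/

set_option autoImplicit false

namespace Pool.Agent.J6H56.GA

open Pool.Agent.NPC Pool.Agent.H620R2.Gauge Filter Finset Topology

/-- For every string `x`, a secret string of length `2 ^ (|x| + 1)` and a secret bit. -/
abbrev Secret : Type := (x : List Bool) → (Fin (2 ^ (x.length + 1)) → Bool) × Bool

open Classical in
/-- The oracle of the secrets `s`: for every string `x`, it contains the string which consists of the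
secret bit of `x` and the pair of the secret string of `x` and the padded string `x`. -/
noncomputable def ora (s : Secret) : Oracle :=
  fun v => decide (∃ x : List Bool, v = (s x).2 :: wd x (List.ofFn (s x).1))

/-- the strings whose secret bit is `true` -/
def LS (s : Secret) : Set (List Bool) := {x | (s x).2 = true}

theorem ora_iff {s : Secret} {v : List Bool} :
    ora s v = true ↔ ∃ x : List Bool, v = (s x).2 :: wd x (List.ofFn (s x).1) := by
  classical
  unfold ora
  exact decide_eq_true_iff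

theorem length_ofSecret (s : Secret) (x : List Bool) :
    2 ^ (x.length + 1) < ((s x).2 :: wd x (List.ofFn (s x).1)).length := by
  rw [List.length_cons]
  have := length_wd x (List.ofFn (s x).1)
  omega

theorem ora_congr {s s' : Secret} {N : ℕ} (h : ∀ x : List Bool, x.length < N → s x = s' x)
    (v : List Bool) (hv : v.length < N) : ora s v = ora s' v := by
  have key : ∀ s s' : Secret, (∀ x : List Bool, x.length < N → s x = s' x) →
      ora s v = true → ora s' v = true := by
    intro s s' h h1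
    rw [ora_iff] at h1 ⊢
    obtain ⟨x, hx⟩ := h1
    have h2 := length_ofSecret s x
    rw [← hx] at h2
    have h3 : x.length + 1 < 2 ^ (x.length + 1) := Nat.lt_two_pow_self
    refine ⟨x, ?_⟩
    rw [← h x (by omega)]
    exact hx
  rw [Bool.eq_iff_iff]
  exact ⟨key s s' h, key s' s fun x hx => (h x hx).symm⟩

section

variable {X : List Bool → Type} [∀ x, TopologicalSpace (X x)] [∀ x, DiscreteTopology (X x)]

theorem isOpen_cylP (s : ∀ x, X x) (N : ℕ) :
    IsOpen {s' : ∀ x, X x | ∀ x : List Bool, x.length < N → s x = s' x} := by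
  have h1 : {s' : ∀ x, X x | ∀ x : List Bool, x.length < N → s x = s' x} =
      ⋂ x ∈ {x : List Bool | x.length < N}, (fun s' : ∀ x, X x => s' x) ⁻¹' {s x} := by
    ext s'
    simp [eq_comm]
  rw [h1]
  refine (List.finite_length_lt Bool N).isOpen_biInter fun x _ => ?_
  exact (isOpen_discrete ({s x} : Set (X x))).preimage (continuous_apply x)

theorem residP {D : Set (∀ x, X x)} (h : ∀ (s : ∀ x, X x) (ℓ : ℕ),
    ∃ (s' : ∀ x, X x) (N : ℕ), (∀ x : List Bool, x.length < ℓ → s' x = s x) ∧
      ∀ s'' : ∀ x, X x, (∀ x : List Bool, x.length < N → s' x = s'' x) → s'' ∈ D) :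
    D ∈ residual (∀ x, X x) := by
  refine mem_of_superset (residual_of_dense_open (s := interior D) isOpen_interior ?_)
    interior_subset
  rw [dense_iff_inter_open]
  rintro U hU ⟨s, hs⟩
  obtain ⟨ℓ, hℓ⟩ : ∃ ℓ : ℕ, ∀ s' : ∀ x, X x,
      (∀ x : List Bool, x.length < ℓ → s' x = s x) → s' ∈ U := by
    rw [isOpen_pi_iff] at hU
    obtain ⟨I, u, h1, h2⟩ := hU s hs
    refine ⟨I.sup List.length + 1, fun s' hs' => h2 ?_⟩
    intro x hx
    rw [hs' x (Nat.lt_succ_of_le (Finset.le_sup (f := List.length) hx))]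
    exact (h1 x hx).2
  obtain ⟨s', N, h1, h2⟩ := h s ℓ
  exact ⟨s', hℓ s' h1, mem_interior.2 ⟨_, h2, isOpen_cylP s' N, fun x _ => rfl⟩⟩

theorem resid_freqP {Bad : ℕ → (∀ x, X x) → Prop}
    (h1 : ∀ᶠ n : ℕ in atTop, ∀ s₀ : ∀ x, X x, ∃ s : ∀ x, X x,
      (∀ x : List Bool, x.length < n → s x = s₀ x) ∧ Bad n s)
    (h2 : ∀ n, ∃ N : ℕ, ∀ s s' : ∀ x, X x,
      (∀ x : List Bool, x.length < N → s x = s' x) → Bad n s → Bad n s') :
    ∀ᶠ s in residual (∀ x, X x), ∃ᶠ n in atTop, Bad n s := by
  simp only [frequently_atTop]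
  rw [eventually_countable_forall]
  intro n₀
  refine residP fun s ℓ => ?_
  obtain ⟨n, h3, h4⟩ := (h1.and ((eventually_ge_atTop n₀).and (eventually_ge_atTop ℓ))).exists
  obtain ⟨s', h5, h6⟩ := h3 s
  obtain ⟨N, hN⟩ := h2 n
  exact ⟨s', N, fun x hx => h5 x (lt_of_lt_of_le hx h4.2),
    fun s'' hs'' => ⟨n, h4.1, hN s' s'' hs'' h6⟩⟩

end

/-- `A'` arises from `A` by a change at few strings outside of `H`, the short strings do not change,
and the very long strings do not matter. -/
def NearU (n m : ℕ) (H : Finset (List Bool)) (A A' : Oracle) : Prop :=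
  ∃ D : Finset (List Bool), D.card ≤ 2 ^ (m + 1) ∧ (∀ v ∈ D, v ∉ H) ∧
    (∀ v : List Bool, v.length < 2 ^ (n + 1) → A v = A' v) ∧
    ∀ v : List Bool, v ∉ D → v.length ≤ 2 ^ (m + 1) → A' v = A v

/-- small certificates for one of the answers -/
def HasCertU (n m r : ℕ) (W : Finset (List Bool)) (Yes No : Oracle → List Bool → List Bool → Prop) :
    Prop :=
  ∀ (A : Oracle) (w x : List Bool), w ∈ W → x.length = n →
    ∃ H : Finset (List Bool), H.card ≤ r ∧
      ((∀ A' : Oracle, NearU n m H A A' → ¬ Yes A' w x) ∨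
        ∀ A' : Oracle, NearU n m H A A' → ¬ No A' w x)

theorem sum_two_pow_le (n m : ℕ) : ∑ l ∈ Finset.Icc n m, 2 ^ l ≤ 2 ^ (m + 1) := by
  have h1 : ∀ m : ℕ, ∑ l ∈ range (m + 1), 2 ^ l + 1 = 2 ^ (m + 1) := by
    intro m
    induction m with
    | zero => rfl
    | succ m ih =>
      rw [sum_range_succ, pow_succ 2 (m + 1)]
      omega
  have h2 : ∑ l ∈ Finset.Icc n m, 2 ^ l ≤ ∑ l ∈ range (m + 1), 2 ^ l := by
    refine sum_le_sum_of_subset fun l hl => ?_
    rw [Finset.mem_Icc] at hl
    rw [mem_range]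
    omega
  have h3 := h1 m
  omega

open Classical in
/-- the secrets: old ones for short strings, new ones for the others -/
noncomputable def mix (n : ℕ) (s₀ : Secret) (f : (x : List Bool) → Fin (2 ^ (x.length + 1)) → Bool)
    (T : Finset ℕ) : Secret :=
  fun x => if x.length < n then s₀ x else (f x, decide (∃ k ∈ T, x = bitsOf n k))

open Classical in
/-- the oracle of the old secrets for the short strings -/
noncomputable def base (n : ℕ) (s₀ : Secret) : Oracle :=
  fun v => decide (∃ x : List Bool, x.length < n ∧ v = (s₀ x).2 :: wd x (List.ofFn (s₀ x).1))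

theorem mix_lt {n : ℕ} {s₀ : Secret} {f : (x : List Bool) → Fin (2 ^ (x.length + 1)) → Bool}
    {T : Finset ℕ} {x : List Bool} (hx : x.length < n) : mix n s₀ f T x = s₀ x := if_pos hx

open Classical in
theorem mix_ge {n : ℕ} {s₀ : Secret} {f : (x : List Bool) → Fin (2 ^ (x.length + 1)) → Bool}
    {T : Finset ℕ} {x : List Bool} (hx : n ≤ x.length) :
    mix n s₀ f T x = (f x, decide (∃ k ∈ T, x = bitsOf n k)) := if_neg (by omega)

theorem base_iff {n : ℕ} {s₀ : Secret} {v : List Bool} : base n s₀ v = true ↔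
    ∃ x : List Bool, x.length < n ∧ v = (s₀ x).2 :: wd x (List.ofFn (s₀ x).1) := by
  classical
  unfold base
  exact decide_eq_true_iff

theorem base_le {n : ℕ} {s₀ : Secret} {f : (x : List Bool) → Fin (2 ^ (x.length + 1)) → Bool}
    {T : Finset ℕ} {v : List Bool} (h : base n s₀ v = true) : ora (mix n s₀ f T) v = true := by
  rw [base_iff] at h
  obtain ⟨x, hx, hv⟩ := h
  rw [ora_iff]
  refine ⟨x, ?_⟩
  rw [mix_lt hx]
  exact hv

theorem mix_near {n m : ℕ} {s₀ : Secret}
    {f : (x : List Bool) → Fin (2 ^ (x.length + 1)) → Bool} {T : Finset ℕ}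
    {H : Finset (List Bool)}
    (hf : ∀ x : List Bool, n ≤ x.length → wd x (List.ofFn (f x)) ∉ H.image List.tail) :
    NearU n m H (base n s₀) (ora (mix n s₀ f T)) := by
  classical
  refine ⟨(Finset.Icc n m).biUnion fun l => (range (2 ^ l)).image fun j =>
    (mix n s₀ f T (bitsOf l j)).2 :: wd (bitsOf l j) (List.ofFn (mix n s₀ f T (bitsOf l j)).1),
    ?_, ?_, ?_, ?_⟩
  · refine card_biUnion_le.trans (le_trans (sum_le_sum fun l _ => ?_) (sum_two_pow_le n m))
    exact card_image_le.trans_eq (card_range _)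
  · intro v hv hvH
    rw [mem_biUnion] at hv
    obtain ⟨l, hl, hv⟩ := hv
    obtain ⟨j, _, rfl⟩ := mem_image.1 hv
    rw [Finset.mem_Icc] at hl
    have hlen : n ≤ (bitsOf l j).length := by rw [length_bitsOf]; exact hl.1
    apply hf (bitsOf l j) hlen
    refine mem_image.2 ⟨_, hvH, ?_⟩
    rw [List.tail_cons, mix_ge hlen]
  · intro v hv
    rw [Bool.eq_iff_iff]
    refine ⟨base_le, fun h => ?_⟩
    rw [ora_iff] at h
    obtain ⟨x, hx⟩ := h
    have h2 := length_ofSecret (mix n s₀ f T) x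
    rw [← hx] at h2
    have h3 : x.length + 1 < n + 1 :=
      (Nat.pow_lt_pow_iff_right (show 1 < 2 by norm_num)).1 (h2.trans hv)
    have h4 : x.length < n := by omega
    rw [base_iff]
    refine ⟨x, h4, ?_⟩
    rw [mix_lt h4] at hx
    exact hx
  · intro v hvD hv
    rw [Bool.eq_iff_iff]
    refine ⟨fun h => ?_, base_le⟩
    rw [ora_iff] at h
    obtain ⟨x, hx⟩ := h
    have h2 := length_ofSecret (mix n s₀ f T) x
    rw [← hx] at h2
    have h3 : x.length + 1 < m + 1 :=
      (Nat.pow_lt_pow_iff_right (show 1 < 2 by norm_num)).1 (lt_of_lt_of_le h2 hv)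
    by_cases h4 : x.length < n
    · rw [base_iff]
      refine ⟨x, h4, ?_⟩
      rw [mix_lt h4] at hx
      exact hx
    · exfalso
      apply hvD
      obtain ⟨j, hj, hj2⟩ := exists_bitsOf x
      refine mem_biUnion.2 ⟨x.length, Finset.mem_Icc.2 ⟨by omega, by omega⟩,
        mem_image.2 ⟨j, mem_range.2 hj, ?_⟩⟩
      rw [hj2]
      exact hx.symm

/-- a table which agrees with few of the tables in `𝒯` in at least `t` places -/
theorem exists_table {N t : ℕ} (𝒯 : Finset (Finset ℕ))
    (h : 𝒯.card * ∑ i ∈ Finset.Icc t N, N.choose i < 2 ^ N) :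
    ∃ T ⊆ range N, ∀ τ ∈ 𝒯, ((range N).filter fun k => (k ∈ T ↔ k ∈ τ)).card < t := by
  classical
  by_contra hcon
  push Not at hcon
  have h1 : (range N).powerset ⊆ 𝒯.biUnion fun τ => (range N).powerset.filter fun T =>
      t ≤ ((range N).filter fun k => (k ∈ T ↔ k ∈ τ)).card := by
    intro T hT
    obtain ⟨τ, h2, h3⟩ := hcon T (mem_powerset.1 hT)
    exact mem_biUnion.2 ⟨τ, h2, mem_filter.2 ⟨hT, h3⟩⟩
  have h2 : ∀ τ : Finset ℕ, ((range N).powerset.filter fun T =>
      t ≤ ((range N).filter fun k => (k ∈ T ↔ k ∈ τ)).card).card ≤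
      ∑ i ∈ Finset.Icc t N, N.choose i := by
    intro τ
    have h3 : ((range N).powerset.filter fun T =>
        t ≤ ((range N).filter fun k => (k ∈ T ↔ k ∈ τ)).card).card ≤
        ((Finset.Icc t N).biUnion fun i => powersetCard i (range N)).card := by
      refine card_le_card_of_injOn (fun T => (range N).filter fun k => (k ∈ T ↔ k ∈ τ)) ?_ ?_
      · intro T hT
        have hT2 := (mem_filter.1 hT).2
        refine mem_coe.2 (mem_biUnion.2 ⟨_, Finset.mem_Icc.2 ⟨hT2, ?_⟩,
          mem_powersetCard.2 ⟨filter_subset _ _, rfl⟩⟩)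
        exact (card_le_card (filter_subset _ _)).trans_eq (card_range N)
      · intro T hT T' hT' heq
        have hT1 := mem_powerset.1 (mem_filter.1 hT).1
        have hT1' := mem_powerset.1 (mem_filter.1 hT').1
        ext k
        by_cases hk : k ∈ range N
        · have h5 : k ∈ (range N).filter (fun k => (k ∈ T ↔ k ∈ τ)) ↔
              k ∈ (range N).filter (fun k => (k ∈ T' ↔ k ∈ τ)) := by
            have h6 : ((range N).filter fun k => (k ∈ T ↔ k ∈ τ)) =
              (range N).filter fun k => (k ∈ T' ↔ k ∈ τ) := heq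
            rw [h6]
          rw [mem_filter, mem_filter] at h5
          tauto
        · exact ⟨fun h => absurd (hT1 h) hk, fun h => absurd (hT1' h) hk⟩
    refine h3.trans (card_biUnion_le.trans (sum_le_sum fun i _ => ?_))
    rw [card_powersetCard, card_range]
  have h3 : 2 ^ N ≤ 𝒯.card * ∑ i ∈ Finset.Icc t N, N.choose i := by
    calc 2 ^ N = (range N).powerset.card := by rw [card_powerset, card_range]
      _ ≤ _ := card_le_card h1
      _ ≤ _ := card_biUnion_le_card_mul _ _ _ fun τ _ => h2 τ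
  omega

/-- the table lemma for secrets -/
theorem tablesU {n m r t : ℕ} {W : Finset (List Bool)}
    {Yes No : Oracle → List Bool → List Bool → Prop}
    (h : HasCertU n m r W Yes No) (s₀ : Secret)
    (hsz : W.card * (2 ^ n * r) < 2 ^ 2 ^ (n + 1))
    (hW : W.card * ∑ i ∈ Finset.Icc t (2 ^ n), (2 ^ n).choose i < 2 ^ 2 ^ n) :
    ∃ s : Secret, (∀ x : List Bool, x.length < n → s x = s₀ x) ∧
      ∀ w ∈ W, {x : List Bool | x.length = n ∧
        ((x ∈ LS s → Yes (ora s) w x) ∧ (x ∉ LS s → No (ora s) w x))}.ncard < t := by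
  classical
  choose! Q hQ1 hQ2 using h (base n s₀)
  set V : Finset (List Bool) := W.biUnion fun w =>
      (range (2 ^ n)).biUnion fun k => Q w (bitsOf n k) with hV
  set U : Finset (List Bool) := V.image List.tail with hU
  have hUc : U.card < 2 ^ 2 ^ (n + 1) := by
    refine lt_of_le_of_lt (card_image_le.trans ?_) hsz
    have e1 : V.card ≤ W.card * ((range (2 ^ n)).card * r) := by
      refine card_biUnion_le_card_mul _ _ _ fun w hw => ?_
      exact card_biUnion_le_card_mul _ _ _ fun k _ => hQ1 w _ hw (length_bitsOf n k)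
    rwa [card_range] at e1
  have hex : ∀ x : List Bool, ∃ f : Fin (2 ^ (x.length + 1)) → Bool,
      n ≤ x.length → wd x (List.ofFn f) ∉ U := by
    intro x
    by_cases hx : n ≤ x.length
    · obtain ⟨u, hu1, hu2⟩ := exists_wd U (2 ^ (x.length + 1)) (lt_of_lt_of_le hUc
        (Nat.pow_le_pow_right (by norm_num) (Nat.pow_le_pow_right (by norm_num) (by omega)))) x
      refine ⟨fun i => u.get (i.cast hu1.symm), fun _ => ?_⟩
      have h1 : List.ofFn (fun i : Fin (2 ^ (x.length + 1)) => u.get (i.cast hu1.symm)) = u := by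
        apply List.ext_get
        · rw [List.length_ofFn, hu1]
        · intro i hi hi'
          simp
      rw [h1]
      exact hu2
    · exact ⟨fun _ => false, fun h => absurd h hx⟩
  choose f hf using hex
  have hnear : ∀ (T : Finset ℕ), ∀ w ∈ W, ∀ k < 2 ^ n,
      NearU n m (Q w (bitsOf n k)) (base n s₀) (ora (mix n s₀ f T)) := by
    intro T w hw k hk
    refine mix_near fun x hx hcon => hf x hx ?_
    obtain ⟨v, hv, hv2⟩ := mem_image.1 hcon
    refine mem_image.2 ⟨v, ?_, hv2⟩
    rw [hV]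
    simp only [mem_biUnion, mem_range]
    exact ⟨w, hw, k, hk, hv⟩
  have hmem : ∀ T ⊆ range (2 ^ n), ∀ k < 2 ^ n, bitsOf n k ∈ LS (mix n s₀ f T) ↔ k ∈ T := by
    intro T hT k hk
    show (mix n s₀ f T (bitsOf n k)).2 = true ↔ _
    rw [mix_ge (by rw [length_bitsOf]), decide_eq_true_iff]
    constructor
    · rintro ⟨k', hk', h1⟩
      have h2 := hT hk'
      rw [mem_range] at h2
      rwa [bitsOf_inj hk h2 h1]
    · intro h1
      exact ⟨k, h1, rfl⟩
  set τ : List Bool → Finset ℕ := fun w => (range (2 ^ n)).filter fun k =>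
    ∀ A' : Oracle, NearU n m (Q w (bitsOf n k)) (base n s₀) A' → ¬ No A' w (bitsOf n k) with hτ
  obtain ⟨T, hT1, hT2⟩ := exists_table (N := 2 ^ n) (t := t) (W.image τ)
    (lt_of_le_of_lt (Nat.mul_le_mul_right _ card_image_le) hW)
  refine ⟨mix n s₀ f T, fun x hx => mix_lt hx, fun w hw => ?_⟩
  refine lt_of_le_of_lt ?_ (hT2 (τ w) (mem_image_of_mem _ hw))
  have hsub : {x : List Bool | x.length = n ∧
      ((x ∈ LS (mix n s₀ f T) → Yes (ora (mix n s₀ f T)) w x) ∧
        (x ∉ LS (mix n s₀ f T) → No (ora (mix n s₀ f T)) w x))} ⊆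
      (((range (2 ^ n)).filter fun k => (k ∈ T ↔ k ∈ τ w)).image (bitsOf n) :
        Finset (List Bool)) := by
    rintro x ⟨hx, h1, h2⟩
    obtain ⟨k, hk, hk2⟩ := exists_bitsOf x
    rw [hx] at hk hk2
    subst hk2
    rw [hmem T hT1 k hk] at h1 h2
    refine mem_coe.2 (mem_image.2 ⟨k, mem_filter.2 ⟨mem_range.2 hk, ?_⟩, rfl⟩)
    constructor
    · intro h3
      rw [hτ]
      refine mem_filter.2 ⟨mem_range.2 hk, ?_⟩
      rcases hQ2 w _ hw (length_bitsOf n k) with h4 | h4
      · exact absurd (h1 h3) (h4 _ (hnear _ w hw k hk))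
      · exact h4
    · intro h3
      by_contra h4
      rw [hτ] at h3
      exact (mem_filter.1 h3).2 _ (hnear _ w hw k hk) (h2 h4)
  calc {x : List Bool | x.length = n ∧
      ((x ∈ LS (mix n s₀ f T) → Yes (ora (mix n s₀ f T)) w x) ∧
        (x ∉ LS (mix n s₀ f T) → No (ora (mix n s₀ f T)) w x))}.ncard
      ≤ (((((range (2 ^ n)).filter fun k => (k ∈ T ↔ k ∈ τ w)).image (bitsOf n) :
        Finset (List Bool)) : Set (List Bool))).ncard :=
        Set.ncard_le_ncard hsub (Finset.finite_toSet _)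
    _ = _ := Set.ncard_coe_finset _
    _ ≤ _ := card_image_le

theorem gen_tablesU {W : ℕ → Finset (List Bool)} {t : ℕ → ℕ} (ht : ∀ n, t n ≤ 2 ^ n)
    (hW : ∀ n, (W n).card * ∑ i ∈ Finset.Icc (t n) (2 ^ n), (2 ^ n).choose i < 2 ^ 2 ^ n)
    {Yes No : Oracle → List Bool → List Bool → Prop}
    (hC : ∀ᶠ n : ℕ in atTop, ∃ m r : ℕ, HasCertU n m r (W n) Yes No ∧ r ≤ 2 ^ n ^ 2)
    (hY : Fin' W Yes) (hN : Fin' W No) :
    ∀ᶠ s in residual Secret, ∃ᶠ n in atTop, ∀ w ∈ W n, {x : List Bool | x.length = n ∧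
      ((x ∈ LS s → Yes (ora s) w x) ∧ (x ∉ LS s → No (ora s) w x))}.ncard < t n := by
  refine resid_freqP ?_ fun n => ?_
  · filter_upwards [hC, eventually_ge_atTop 6] with n ⟨m, r, hr, hr2⟩ hn s₀
    refine tablesU hr s₀ ?_ (hW n)
    have h1 : (W n).card < 2 ^ 2 ^ n := by
      refine lt_of_le_of_lt ?_ (hW n)
      refine Nat.le_mul_of_pos_right _ ?_
      refine lt_of_lt_of_le Nat.zero_lt_one ?_
      calc 1 = (2 ^ n).choose (2 ^ n) := (Nat.choose_self _).symm
        _ ≤ _ := single_le_sum (f := fun i => (2 ^ n).choose i) (fun _ _ => Nat.zero_le _)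
            (Finset.mem_Icc.2 ⟨ht n, le_rfl⟩)
    calc (W n).card * (2 ^ n * r) ≤ 2 ^ 2 ^ n * (2 ^ n * 2 ^ n ^ 2) := by
          gcongr
      _ = 2 ^ (2 ^ n + (n + n ^ 2)) := by
          rw [← pow_add, ← pow_add]
      _ < 2 ^ 2 ^ (n + 1) := by
          apply Nat.pow_lt_pow_right (by norm_num)
          have := sq_le2 n hn
          rw [pow_succ 2 n]
          omega
  · obtain ⟨N₁, h1⟩ := hY n
    obtain ⟨N₂, h2⟩ := hN n
    refine ⟨max N₁ (max N₂ (n + 1)), fun s s' hs hbad w hw => ?_⟩
    have h3 := hbad w hw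
    have h4 : {x : List Bool | x.length = n ∧
        ((x ∈ LS s → Yes (ora s) w x) ∧ (x ∉ LS s → No (ora s) w x))} =
        {x : List Bool | x.length = n ∧
        ((x ∈ LS s' → Yes (ora s') w x) ∧ (x ∉ LS s' → No (ora s') w x))} := by
      ext x
      refine and_congr_right fun hx => ?_
      have hA := ora_congr hs
      have e1 := h1 _ _ (fun v hv => hA v (lt_of_lt_of_le hv (le_max_left _ _))) w hw x hx
      have e2 := h2 _ _ (fun v hv => hA v (lt_of_lt_of_le hv ((le_max_left _ _).trans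
        (le_max_right _ _)))) w hw x hx
      have e3 : x ∈ LS s ↔ x ∈ LS s' := by
        unfold LS
        rw [Set.mem_ofPred_eq, Set.mem_ofPred_eq,
          hs x (lt_of_lt_of_le (show x.length < n + 1 by omega)
          ((le_max_right _ _).trans (le_max_right _ _)))]
      rw [e1, e2, e3]
    rwa [h4] at h3

end Pool.Agent.J6H56.GA
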